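import Pool.Agent.CGR.Targets

/-!
CGR, target AK: the events `Ak` are independent and have small probability.
-/

set_option autoImplicit false

open Finset MeasureTheory ProbabilityTheory

namespace Pool.Agent.CGR

namespace AK_

/-- the numbers `k * 2 ^ n + 1` -/
def FF (R k : ℕ) : Finset ℕ := (Icc 1 R).image fun n => k * 2 ^ n + 1

theorem Ak_eq {Ω : Type} (S : ℕ → Set Ω) (R k : ℕ) : Ak S R k = ⋂ m ∈ FF R k, (S m)ᶜ := by
  ext ω
  simp only [Ak, FF, Set.mem_setOf_eq, Set.mem_iInter, Set.mem_compl_iff, mem_image]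
  constructor
  · rintro h m ⟨n, hn, rfl⟩
    exact h n hn
  · intro h n hn
    exact h _ ⟨n, hn, rfl⟩

theorem odd_aux {k k' n n' : ℕ} (hk : Odd k) (h : n ≤ n') (e : k * 2 ^ n = k' * 2 ^ n') :
    k = k' := by
  obtain ⟨d, rfl⟩ := Nat.exists_eq_add_of_le h
  have h1 : k * 2 ^ n = (k' * 2 ^ d) * 2 ^ n := by
    rw [e, pow_add]
    ring
  have h2 : k = k' * 2 ^ d := Nat.eq_of_mul_eq_mul_right (by positivity) h1
  rcases Nat.eq_zero_or_pos d with hd | hd
  · rw [h2, hd, pow_zero, mul_one]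
  · exfalso
    have h3 : Even (k' * 2 ^ d) := by
      refine Even.mul_left ?_ _
      exact (Nat.even_pow.2 ⟨even_two, hd.ne'⟩)
    rw [← h2] at h3
    exact (Nat.not_even_iff_odd.2 hk) h3

theorem odd_eq {k k' n n' : ℕ} (hk : Odd k) (hk' : Odd k') (e : k * 2 ^ n = k' * 2 ^ n') :
    k = k' := by
  rcases le_total n n' with h | h
  · exact odd_aux hk h e
  · exact (odd_aux hk' h e.symm).symm

theorem inj {k : ℕ} (hk : 1 ≤ k) : Function.Injective fun n : ℕ => k * 2 ^ n + 1 := by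
  intro a b h
  have h1 : k * 2 ^ a = k * 2 ^ b := by
    have : k * 2 ^ a + 1 = k * 2 ^ b + 1 := h
    omega
  have h2 : 2 ^ a = 2 ^ b := Nat.eq_of_mul_eq_mul_left (by omega) h1
  exact Nat.pow_right_injective le_rfl h2

theorem disj {R R' k k' : ℕ} (hk : Odd k) (hk' : Odd k') (hne : k ≠ k') :
    Disjoint (FF R k) (FF R' k') := by
  rw [Finset.disjoint_left]
  intro m h1 h2
  unfold FF at h1 h2
  rw [mem_image] at h1 h2
  obtain ⟨a, _, rfl⟩ := h1
  obtain ⟨b, _, hb⟩ := h2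
  have hb' : k' * 2 ^ b + 1 = k * 2 ^ a + 1 := hb
  have h3 : k * 2 ^ a = k' * 2 ^ b := (Nat.succ_injective hb').symm
  exact hne (odd_eq hk hk' h3)

end AK_

open AK_ in
/-- AK -/
theorem p_AK (h : T_IND) : T_AK := by
  intro Ω _ μ _ g δ S hM R k hk
  have hk1 : 1 ≤ k := hk.pos
  have hI := h Ω _ μ ‹_› S hM.meas hM.ind
  have e1 : ∀ k : ℕ, μ.real (Ak S R k) = ∏ m ∈ FF R k, (1 - μ.real (S m)) := by
    intro k
    rw [Ak_eq]
    exact hI _
  refine ⟨?_, ?_, ?_⟩
  · rw [Ak_eq]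
    exact Finset.measurableSet_biInter _ fun m _ => (hM.meas m).compl
  · rw [e1]
    unfold FF
    rw [prod_image fun a _ b _ hab => inj hk1 hab]
    have h1 : ∏ n ∈ Icc 1 R, (1 - μ.real (S (k * 2 ^ n + 1))) ≤
        ∏ n ∈ Icc 1 R, Real.exp (-μ.real (S (k * 2 ^ n + 1))) := by
      refine prod_le_prod (fun n _ => ?_) fun n _ => ?_
      · have : μ.real (S (k * 2 ^ n + 1)) ≤ 1 := measureReal_le_one
        linarith
      · have := Real.add_one_le_exp (-μ.real (S (k * 2 ^ n + 1)))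
        linarith
    refine h1.trans ?_
    rw [← Real.exp_sum]
    refine Real.exp_le_exp.2 ?_
    rw [sum_neg_distrib, mul_sum]
    refine neg_le_neg (sum_le_sum fun n _ => hM.low _)
  · intro k' hk' hne
    have e2 : Ak S R k ∩ Ak S R k' = ⋂ m ∈ FF R k ∪ FF R k', (S m)ᶜ := by
      rw [Ak_eq, Ak_eq]
      ext ω
      simp only [Set.mem_inter_iff, Set.mem_iInter, mem_union]
      constructor
      · rintro ⟨a, b⟩ m (hm | hm)
        · exact a m hm
        · exact b m hm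
      · intro a
        exact ⟨fun m hm => a m (Or.inl hm), fun m hm => a m (Or.inr hm)⟩
    rw [e2, hI, prod_union (disj hk hk' hne), ← e1, ← e1]

end Pool.Agent.CGR
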