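import Pool.Agent.CGR.Targets

/-!
CGR (MP_315051_nt): Borel-Cantelli for the numbers of the failures
-/

set_option autoImplicit false

open Finset MeasureTheory ProbabilityTheory

namespace Pool.Agent.CGR

namespace BCL_

open Classical in
/-- The bad event of stage `j`. -/
noncomputable def bad {Ω : Type} [MeasurableSpace Ω] (μ : Measure Ω) (S : ℕ → Set Ω)
    (R : ℕ → ℕ) (F : ℕ → Finset ℕ) (η : ℝ) (j : ℕ) : Set Ω :=
  {ω | ∑ k ∈ F j, μ.real (Ak S (R j) k) + η * 2 ^ j ≤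
    (((F j).filter fun k => ω ∈ Ak S (R j) k).card : ℝ)}

theorem card_le {F : Finset ℕ} {j : ℕ} (h : ∀ k ∈ F, k ≤ 2 ^ j) : (F.card : ℝ) ≤ 2 ^ j + 1 := by
  have h1 : F ⊆ range (2 ^ j + 1) := fun k hk => by
    rw [mem_range]
    exact Nat.lt_succ_of_le (h k hk)
  have h2 := Finset.card_le_card h1
  rw [card_range] at h2
  exact_mod_cast h2

theorem summ (η : ℝ) : Summable fun j : ℕ => 2 / η ^ 2 * (1 / 2 : ℝ) ^ j :=
  (summable_geometric_of_lt_one (by norm_num) (by norm_num)).mul_left _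

theorem bd {x η : ℝ} (hη : 0 < η) (j : ℕ) (h : x ≤ (2 ^ j + 1) / (η * 2 ^ j) ^ 2) :
    x ≤ 2 / η ^ 2 * (1 / 2 : ℝ) ^ j := by
  refine h.trans ?_
  have h1 : (1 : ℝ) ≤ 2 ^ j := one_le_pow₀ (by norm_num)
  have h2 : (0 : ℝ) < 2 ^ j := by positivity
  rw [one_div, inv_pow, mul_pow, div_mul_eq_mul_div, ← div_eq_mul_inv, div_div,
    div_le_div_iff₀ (by positivity) (by positivity)]
  have h3 : (2 ^ j + 1 : ℝ) ≤ 2 * 2 ^ j := by linarith
  calc (2 ^ j + 1 : ℝ) * (2 ^ j * η ^ 2) ≤ (2 * 2 ^ j) * (2 ^ j * η ^ 2) := by gcongr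
    _ = 2 * (η ^ 2 * (2 ^ j) ^ 2) := by ring

end BCL_

open Classical in
theorem p_BCL (h1 : T_AK) (h2 : T_VAR) : T_BCL := by
  intro Ω _ μ _ g δ S hM R F M1 η hη hF
  have hb : ∀ j, μ.real (BCL_.bad μ S R F η j) ≤ 2 / η ^ 2 * (1 / 2 : ℝ) ^ j := by
    intro j
    apply BCL_.bd hη j
    have h3 := h2 Ω _ μ inferInstance (fun k => Ak S (R j) k) (F j) (η * 2 ^ j) (by positivity)
      (fun k hk => (h1 Ω _ μ inferInstance g δ S hM (R j) k (hF j k hk).1).1)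
      (fun k hk k' hk' hne =>
        (h1 Ω _ μ inferInstance g δ S hM (R j) k (hF j k hk).1).2.2 k' (hF j k' hk').1 hne)
    refine h3.trans ?_
    have h4 := BCL_.card_le (F := F j) (j := j) fun k hk => (hF j k hk).2.1
    gcongr
  have hs : ∑' j, μ (BCL_.bad μ S R F η j) ≠ ⊤ := by
    have h3 : ∑' j, μ (BCL_.bad μ S R F η j) ≤
        ∑' j : ℕ, ENNReal.ofReal (2 / η ^ 2 * (1 / 2 : ℝ) ^ j) := by
      refine ENNReal.tsum_le_tsum fun j => ?_
      rw [← ENNReal.ofReal_toReal (measure_ne_top μ (BCL_.bad μ S R F η j))]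
      exact ENNReal.ofReal_le_ofReal (hb j)
    rw [← ENNReal.ofReal_tsum_of_nonneg (fun j => by positivity) (BCL_.summ η)] at h3
    exact ne_top_of_le_ne_top ENNReal.ofReal_ne_top h3
  filter_upwards [ae_eventually_notMem hs] with ω hω
  obtain ⟨j0, hj0⟩ := Filter.eventually_atTop.1 hω
  refine ⟨j0, fun j hj => ?_⟩
  have h3 := hj0 j hj
  have h4 : (((F j).filter fun k => ω ∈ Ak S (R j) k).card : ℝ) <
      ∑ k ∈ F j, μ.real (Ak S (R j) k) + η * 2 ^ j := by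
    by_contra hcon
    exact h3 (not_lt.1 hcon)
  have h5 : ∑ k ∈ F j, μ.real (Ak S (R j) k) ≤ (F j).card * Real.exp (-M1) := by
    rw [← nsmul_eq_mul]
    refine Finset.sum_le_card_nsmul _ _ _ fun k hk => ?_
    refine (h1 Ω _ μ inferInstance g δ S hM (R j) k (hF j k hk).1).2.1.trans ?_
    exact Real.exp_le_exp.2 (neg_le_neg (hF j k hk).2.2)
  have h6 := BCL_.card_le (F := F j) (j := j) fun k hk => (hF j k hk).2.1
  have h7 : ((F j).card : ℝ) * Real.exp (-M1) ≤ (2 ^ j + 1) * Real.exp (-M1) :=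
    mul_le_mul_of_nonneg_right h6 (Real.exp_pos _).le
  have h8 : η * 2 ^ j ≤ η * (2 ^ j + 1) := by nlinarith
  calc (((F j).filter fun k => ω ∈ Ak S (R j) k).card : ℝ)
      ≤ (2 ^ j + 1) * Real.exp (-M1) + η * (2 ^ j + 1) := by linarith
    _ = (Real.exp (-M1) + η) * (2 ^ j + 1) := by ring

end Pool.Agent.CGR
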