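import Pool.Agent.CGR.Targets
import Pool.Agent.SPA.P_FIN

/-!
CGR: proof of the target FIN
-/

set_option autoImplicit false

open Finset MeasureTheory ProbabilityTheory

namespace Pool.Agent.CGR

open Pool.Agent.SPA

namespace FIN_

theorem lower (h3 : T_DEN) (K : ℝ) (hK : ∀ L : ℕ, 1 ≤ L → K ≤ dens L) (P : ℕ → Prop)
    (L : ℕ → ℕ) (hL : ∀ q, 1 ≤ L q)
    (ha : ∀ q : ℕ, ∃ x0 : ℕ, ∀ x ≥ x0,
      cnt (fun k => Odd k ∧ Opn (L q) k ∧ ¬ P k) x ≤ 1 / ((q : ℝ) + 1) * x)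
    (ε : ℝ) (hε : 0 < ε) : ∃ x0 : ℕ, ∀ x ≥ x0, (K - ε) * x ≤ cnt (fun k => Odd k ∧ P k) x := by
  obtain ⟨q, hq⟩ := exists_nat_one_div_lt (show 0 < ε / 2 by positivity)
  obtain ⟨x1, hx1⟩ := ha q
  obtain ⟨x2, hx2⟩ := exists_nat_ge (2 * ((MM (L q) : ℝ) + 1) / ε)
  refine ⟨max x1 x2, fun x hx => ?_⟩
  have hx3 := hx1 x (le_trans (le_max_left _ _) hx)
  have hx4 : (x2 : ℝ) ≤ x := by exact_mod_cast le_trans (le_max_right _ _) hx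
  have h4 : cnt (fun k => Odd k ∧ Opn (L q) k) x ≤ cnt (fun k => Odd k ∧ P k) x +
      cnt (fun k => Odd k ∧ Opn (L q) k ∧ ¬ P k) x := by
    apply Pool.Agent.SPA.FIN_.cnt_le_add
    intro k _ hk
    by_cases hp : P k
    · exact Or.inl ⟨hk.1, hp⟩
    · exact Or.inr ⟨hk.1, hk.2, hp⟩
  have h7 := (abs_le.1 (h3 (L q) (hL q) x)).1
  have h8 : 2 * ((MM (L q) : ℝ) + 1) ≤ x * ε := by
    rw [← div_le_iff₀ hε]
    exact hx2.trans hx4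
  have h9 : K * x ≤ dens (L q) * x :=
    mul_le_mul_of_nonneg_right (hK _ (hL q)) (Nat.cast_nonneg x)
  have h10 : 1 / ((q : ℝ) + 1) * x ≤ ε / 2 * x :=
    mul_le_mul_of_nonneg_right hq.le (Nat.cast_nonneg x)
  linarith

theorem upper (h3 : T_DEN) (K : ℝ)
    (hK : ∀ K' : ℝ, (∀ L : ℕ, 1 ≤ L → K' ≤ dens L) → K' ≤ K) (P : ℕ → Prop)
    (hu : ∀ L : ℕ, 1 ≤ L → ∃ k0 : ℕ, ∀ x : ℕ,
      cnt (fun k => Odd k ∧ P k) x ≤ cnt (fun k => Odd k ∧ Opn L k) x + k0)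
    (ε : ℝ) (hε : 0 < ε) : ∃ x0 : ℕ, ∀ x ≥ x0, cnt (fun k => Odd k ∧ P k) x ≤ (K + ε) * x := by
  have h4 : ∃ L : ℕ, 1 ≤ L ∧ dens L < K + ε / 2 := by
    by_contra hcon
    push Not at hcon
    have := hK (K + ε / 2) hcon
    linarith
  obtain ⟨L, hL, hd⟩ := h4
  obtain ⟨k0, hk0⟩ := hu L hL
  obtain ⟨x0, hx0⟩ := exists_nat_ge (2 * ((MM L : ℝ) + 1 + k0) / ε)
  refine ⟨x0, fun x hx => ?_⟩
  have h5 := hk0 x
  have h7 := (abs_le.1 (h3 L hL x)).2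
  have hx1 : (x0 : ℝ) ≤ x := by exact_mod_cast hx
  have h8 : 2 * ((MM L : ℝ) + 1 + k0) ≤ x * ε := by
    rw [← div_le_iff₀ hε]
    exact hx0.trans hx1
  have h9 : dens L * x ≤ (K + ε / 2) * x := mul_le_mul_of_nonneg_right hd.le (Nat.cast_nonneg x)
  linarith

theorem tend (h3 : T_DEN) (K : ℝ) (hK1 : ∀ L : ℕ, 1 ≤ L → K ≤ dens L)
    (hK2 : ∀ K' : ℝ, (∀ L : ℕ, 1 ≤ L → K' ≤ dens L) → K' ≤ K) (P : ℕ → Prop)
    (L : ℕ → ℕ) (hL : ∀ q, 1 ≤ L q)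
    (ha : ∀ q : ℕ, ∃ x0 : ℕ, ∀ x ≥ x0,
      cnt (fun k => Odd k ∧ Opn (L q) k ∧ ¬ P k) x ≤ 1 / ((q : ℝ) + 1) * x)
    (hu : ∀ L : ℕ, 1 ≤ L → ∃ k0 : ℕ, ∀ x : ℕ,
      cnt (fun k => Odd k ∧ P k) x ≤ cnt (fun k => Odd k ∧ Opn L k) x + k0) :
    Filter.Tendsto (fun x : ℕ => cnt (fun k => Odd k ∧ P k) x / x) Filter.atTop (nhds K) := by
  rw [Metric.tendsto_atTop]
  intro ε hε
  obtain ⟨x1, hx1⟩ := lower h3 K hK1 P L hL ha (ε / 2) (by positivity)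
  obtain ⟨x2, hx2⟩ := upper h3 K hK2 P hu (ε / 2) (by positivity)
  refine ⟨max (max x1 x2) 1, fun x hx => ?_⟩
  have a1 := hx1 x (le_trans (le_trans (le_max_left _ _) (le_max_left _ _)) hx)
  have a2 := hx2 x (le_trans (le_trans (le_max_right _ _) (le_max_left _ _)) hx)
  have a3 : (0 : ℝ) < x := by
    have : 1 ≤ x := le_trans (le_max_right _ _) hx
    exact_mod_cast this
  rw [Real.dist_eq, abs_lt]
  constructor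
  · have : K - ε / 2 ≤ cnt (fun k => Odd k ∧ P k) x / x := by
      rw [le_div_iff₀ a3]
      exact a1
    linarith
  · have : cnt (fun k => Odd k ∧ P k) x / x ≤ K + ε / 2 := by
      rw [div_le_iff₀ a3]
      exact a2
    linarith

end FIN_

open FIN_ in
theorem p_FIN (h1 : T_LOW) (h2 : T_UPP) (h3 : T_DEN) : T_FIN := by
  intro K hK1 hK2 g hg Ω mΩ μ hμ δ S hδ hM
  have hL : ∀ q : ℕ, ∃ L : ℕ, 1 ≤ L ∧ ∀ᵐ ω ∂μ, ∃ x0 : ℕ, ∀ x ≥ x0,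
      cnt (fun k => Odd k ∧ Opn L k ∧ ¬ ∃ n : ℕ, 1 ≤ n ∧ ω ∈ S (k * 2 ^ n + 1)) x ≤
        1 / ((q : ℝ) + 1) * x := fun q => by
    obtain ⟨L, hL, h⟩ := h1 g hg (1 / ((q : ℝ) + 1)) (by positivity)
    exact ⟨L, hL, h Ω mΩ μ hμ δ S hδ hM⟩
  choose L hL1 hL2 using hL
  filter_upwards [ae_all_iff.2 hL2, h2 g hg Ω mΩ μ hμ δ S hM] with ω ha hu
  exact tend h3 K hK1 hK2 _ L hL1 ha hu

end Pool.Agent.CGR
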