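import Pool.Agent.CGR.Targets

/-!
# CGR, IND: the complements of independent events
-/

set_option autoImplicit false

open Finset MeasureTheory ProbabilityTheory

namespace Pool.Agent.CGR

theorem p_IND : T_IND := by
  intro Ω _ μ _ S hm hS F
  have h1 := (iIndepSet_iff_iIndep S μ).1 hS
  have h2 : μ (⋂ m ∈ F, (S m)ᶜ) = ∏ m ∈ F, μ ((S m)ᶜ) := by
    refine h1.meas_biInter fun m _ => ?_
    exact MeasurableSet.compl (MeasurableSpace.measurableSet_generateFrom (Set.mem_singleton _))
  rw [measureReal_def, h2, ENNReal.toReal_prod]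
  refine Finset.prod_congr rfl fun m _ => ?_
  rw [← measureReal_def, probReal_compl_eq_one_sub (hm m)]

end Pool.Agent.CGR
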