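import Pool.Agent.CGR.Targets

/-!
CGR: proof of the target JQ.
-/

set_option autoImplicit false

open Finset MeasureTheory ProbabilityTheory

namespace Pool.Agent.CGR

namespace JQ_

/-- the number of windows -/
theorem div_bound (X h : ℕ) (h0 : 1 ≤ h) (h1 : h ≤ X) : 1 ≤ X / h ∧ X ≤ 2 * h * (X / h) := by
  have h2 : 1 ≤ X / h := Nat.div_pos h1 h0
  refine ⟨h2, ?_⟩
  have h3 : X < h * (X / h) + h := Nat.lt_mul_div_succ X h0
  nlinarith

theorem log_two_mul (z : ℕ) (hz : 2 ≤ z) : (Nat.log 2 z : ℝ) * Real.log 2 ≤ Real.log z := by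
  have h1 : 2 ^ Nat.log 2 z ≤ z := Nat.pow_log_le_self 2 (by omega)
  have h2 : ((2 : ℝ) ^ Nat.log 2 z) ≤ z := by exact_mod_cast h1
  have h3 := Real.log_le_log (by positivity) h2
  rwa [Real.log_pow] at h3

end JQ_

theorem p_JQ : T_JQ := by
  intro g hg
  obtain ⟨C, m0, hC⟩ := hg.reg
  refine ⟨16 * (C ^ 2 + 1), by nlinarith [Nat.zero_le (C ^ 2)], ?_⟩
  intro B I hB
  obtain ⟨m1, hm1⟩ := Filter.eventually_atTop.1 (hg.top.eventually_ge_atTop 2)
  have hB0 : (1 : ℝ) ≤ B := by exact_mod_cast hB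
  obtain ⟨m2, hm2⟩ := hg.pow (1 / (8 * (B : ℝ))) (by positivity)
  refine ⟨m0 + m1 + m2 + 1, fun N hN i hi _ => ?_⟩
  have hbN : N < bb N i := by
    refine lt_of_lt_of_le Nat.lt_two_pow_self ?_
    unfold bb
    refine Nat.pow_le_pow_right (by norm_num) ?_
    exact Nat.le_mul_of_pos_left _ (by positivity)
  have hbpos : 1 ≤ bb N i := by omega
  have hb2 : bb N i ≤ bb N i ^ 2 := Nat.le_self_pow (by norm_num) _
  have hb4 : bb N i ≤ bb N i ^ 4 := Nat.le_self_pow (by norm_num) _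
  have hgb : 2 ≤ g (bb N i) := hm1 _ (by omega)
  have hz2 : 2 ≤ zz g N i := hgb.trans (hg.mono hb4)
  have hzC : zz g N i ≤ g (bb N i) ^ (C ^ 2) := by
    have e1 : bb N i ^ 4 = (bb N i ^ 2) ^ 2 := by ring
    have e2 : g (bb N i ^ 4) ≤ g (bb N i ^ 2) ^ C := by
      rw [e1]
      exact hC _ (by omega)
    have e3 : g (bb N i ^ 2) ≤ g (bb N i) ^ C := hC _ (by omega)
    calc zz g N i = g (bb N i ^ 4) := rfl
      _ ≤ g (bb N i ^ 2) ^ C := e2
      _ ≤ (g (bb N i) ^ C) ^ C := Nat.pow_le_pow_left e3 C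
      _ = g (bb N i) ^ (C ^ 2) := by rw [← pow_mul, sq]
  have hl1 : 1 ≤ Nat.log 2 (zz g N i) := Nat.log_pos (by norm_num) hz2
  have hlog2 : (0 : ℝ) < Real.log 2 := Real.log_pos (by norm_num)
  have hlz := JQ_.log_two_mul (zz g N i) hz2
  have hzpos : (0 : ℝ) < zz g N i := by
    have : 0 < zz g N i := by omega
    exact_mod_cast this
  -- the upper bound for the sieving limit
  have hup : Real.log (zz g N i) ≤
      1 / (8 * (B : ℝ)) * (4 * ((2 ^ i * N : ℕ) : ℝ) * Real.log 2) := by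
    have e1 : ((zz g N i : ℕ) : ℝ) ≤ ((bb N i ^ 4 : ℕ) : ℝ) ^ (1 / (8 * (B : ℝ))) :=
      hm2 _ (by omega)
    have e2 := Real.log_le_log hzpos e1
    have e3 : (0 : ℝ) < ((bb N i ^ 4 : ℕ) : ℝ) := by
      have : 0 < bb N i ^ 4 := by positivity
      exact_mod_cast this
    rw [Real.log_rpow e3] at e2
    have e4 : Real.log ((bb N i ^ 4 : ℕ) : ℝ) = 4 * ((2 ^ i * N : ℕ) : ℝ) * Real.log 2 := by
      unfold bb
      rw [Nat.cast_pow, Real.log_pow, Nat.cast_pow, Real.log_pow]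
      push_cast
      ring
    rwa [e4] at e2
  have h2h : 2 * hh g B N i ≤ 2 ^ i * N := by
    have e1 : (Nat.log 2 (zz g N i) : ℝ) * Real.log 2 ≤
        1 / (8 * (B : ℝ)) * (4 * ((2 ^ i * N : ℕ) : ℝ) * Real.log 2) := hlz.trans hup
    have e2 : (Nat.log 2 (zz g N i) : ℝ) ≤ 1 / (8 * (B : ℝ)) * (4 * ((2 ^ i * N : ℕ) : ℝ)) := by
      refine le_of_mul_le_mul_right ?_ hlog2
      linarith
    have e3 : 2 * ((B : ℝ) * Nat.log 2 (zz g N i)) ≤ ((2 ^ i * N : ℕ) : ℝ) := by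
      have e4 := mul_le_mul_of_nonneg_left e2 (by positivity : (0 : ℝ) ≤ 2 * B)
      have e5 : 2 * (B : ℝ) * (1 / (8 * (B : ℝ)) * (4 * ((2 ^ i * N : ℕ) : ℝ))) =
          ((2 ^ i * N : ℕ) : ℝ) := by
        field_simp
        norm_num
      rw [e5] at e4
      linarith
    unfold hh
    exact_mod_cast e3
  have hh1 : 1 ≤ hh g B N i := Nat.mul_pos hB hl1
  obtain ⟨hJ1, hJ2⟩ := JQ_.div_bound (2 ^ i * N) (hh g B N i) hh1 (by omega)
  refine ⟨hh1, hJ1, ?_⟩
  have hJ1' : (1 : ℝ) ≤ JJ g B N i := by exact_mod_cast hJ1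
  have hJ2' : ((2 ^ i * N : ℕ) : ℝ) ≤ 2 * (B * Nat.log 2 (zz g N i)) * JJ g B N i := by
    have : 2 ^ i * N ≤ 2 * (B * Nat.log 2 (zz g N i)) * JJ g B N i := hJ2
    exact_mod_cast this
  have hC0 : (0 : ℝ) ≤ (C : ℝ) ^ 2 := by positivity
  have hD : (((16 * (C ^ 2 + 1) : ℕ)) : ℝ) = 16 * ((C : ℝ) ^ 2 + 1) := by push_cast; ring
  rw [hD]
  unfold qq
  rcases le_total (1 : ℝ) (Real.log (g (bb N i) + 1) / (4 * (2 ^ i * N) * Real.log 2)) with h | h
  · rw [min_eq_left h, mul_one]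
    refine le_trans ?_ hJ1'
    rw [div_le_one (by positivity)]
    nlinarith
  · rw [min_eq_right h]
    have hgb' : (2 : ℝ) ≤ g (bb N i) := by exact_mod_cast hgb
    have hlg : Real.log (zz g N i) ≤ (C : ℝ) ^ 2 * Real.log (g (bb N i)) := by
      have e1 : ((zz g N i : ℕ) : ℝ) ≤ (g (bb N i) : ℝ) ^ (C ^ 2) := by exact_mod_cast hzC
      have e2 := Real.log_le_log hzpos e1
      rw [Real.log_pow] at e2
      push_cast at e2
      exact e2
    have hlg0 : 0 ≤ Real.log (g (bb N i)) := Real.log_nonneg (by linarith)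
    have hlg1 : Real.log (g (bb N i)) ≤ Real.log (g (bb N i) + 1) :=
      Real.log_le_log (by linarith) (by linarith)
    have hkey : (Nat.log 2 (zz g N i) : ℝ) * Real.log 2 ≤
        ((C : ℝ) ^ 2 + 1) * Real.log (g (bb N i) + 1) := by
      have e1 : (C : ℝ) ^ 2 * Real.log (g (bb N i)) ≤ (C : ℝ) ^ 2 * Real.log (g (bb N i) + 1) :=
        mul_le_mul_of_nonneg_left hlg1 hC0
      have e2 : 0 ≤ Real.log (g (bb N i) + 1) := hlg0.trans hlg1
      nlinarith
    have hX : (0 : ℝ) < 2 ^ i * N := by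
      have : 0 < N := by omega
      have : (0 : ℝ) < N := by exact_mod_cast this
      positivity
    have hX' : ((2 ^ i * N : ℕ) : ℝ) = 2 ^ i * N := by push_cast; ring
    rw [hX'] at hJ2'
    have hl1' : (1 : ℝ) ≤ (Nat.log 2 (zz g N i) : ℝ) := by exact_mod_cast hl1
    set l : ℝ := (Nat.log 2 (zz g N i) : ℝ) with hl
    set J : ℝ := (JJ g B N i : ℝ) with hJ
    set X : ℝ := 2 ^ i * (N : ℝ) with hXd
    set G : ℝ := Real.log (g (bb N i) + 1) with hG
    set c : ℝ := Real.log 2 with hc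
    rw [← mul_div_assoc, div_le_div_iff₀ (by positivity) (by positivity), one_mul]
    -- 4 X c ≤ J G (16 (C^2+1) B)
    have e1 : 4 * X * c ≤ 4 * (2 * (B * l) * J) * c :=
      mul_le_mul_of_nonneg_right (by linarith) hlog2.le
    have e2 : 8 * B * J * (l * c) ≤ 8 * B * J * (((C : ℝ) ^ 2 + 1) * G) :=
      mul_le_mul_of_nonneg_left hkey (by positivity)
    have e3 : 0 ≤ B * J * (((C : ℝ) ^ 2 + 1) * G) := by
      have : 0 ≤ G := hlg0.trans hlg1
      positivity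
    nlinarith

end Pool.Agent.CGR
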