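import Pool.Agent.CGR.Targets

set_option autoImplicit false

/-!
# CGR, target LOW: almost surely few open `k` miss the random set
-/

open Finset MeasureTheory ProbabilityTheory

namespace Pool.Agent.CGR

open Pool.Agent.SPA

/-- membership in a filter, any decidability instance -/
theorem LOW_.memf {P : ℕ → Prop} {d : DecidablePred P} {s : Finset ℕ} {k : ℕ} :
    k ∈ @Finset.filter ℕ P d s ↔ k ∈ s ∧ P k := Finset.mem_filter

/-- LOW -/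
theorem p_LOW (h1 : T_STA) (h2 : T_BCL) : T_LOW := by
  classical
  intro g hg ε hε
  obtain ⟨L, hL, hst⟩ := h1 g hg (ε / 8) (by positivity)
  refine ⟨L, hL, ?_⟩
  intro Ω mΩ μ hμ δ S hδ hM
  obtain ⟨M1, hexp⟩ : ∃ M1 : ℝ, Real.exp (-M1) = ε / 32 :=
    ⟨-Real.log (ε / 32), by rw [neg_neg, Real.exp_log (by positivity)]⟩
  obtain ⟨I, x1, hx1⟩ := hst (M1 / δ)
  let R : ℕ → ℕ := fun j => 2 ^ (I + 1) * Nat.log 2 (2 ^ j)
  let F : ℕ → Finset ℕ := fun j => (range (2 ^ j + 1)).filter fun k => Odd k ∧ Opn L k ∧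
    M1 / δ ≤ ∑ n ∈ Icc 1 (R j), prob g (k * 2 ^ n + 1)
  have hF : ∀ j, ∀ k ∈ F j, Odd k ∧ k ≤ 2 ^ j ∧
      M1 ≤ δ * ∑ n ∈ Icc 1 (R j), prob g (k * 2 ^ n + 1) := by
    intro j k hk
    have hk' := Finset.mem_filter.1 hk
    have hk2 := Finset.mem_range.1 hk'.1
    refine ⟨hk'.2.1, by omega, ?_⟩
    have h3 := (div_le_iff₀ hδ).1 hk'.2.2.2
    rw [mul_comm]
    exact h3
  have hb := h2 Ω mΩ μ hμ g δ S hM R F M1 (ε / 32) (by positivity) hF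
  filter_upwards [hb] with ω hω
  obtain ⟨j0, hj0⟩ := hω
  refine ⟨max (2 ^ j0) (max x1 1), fun x hx => ?_⟩
  have hxa : 2 ^ j0 ≤ x := (le_max_left _ _).trans hx
  have hxb : x1 ≤ x := ((le_max_left _ _).trans (le_max_right _ _)).trans hx
  have hxc : 1 ≤ x := ((le_max_right _ _).trans (le_max_right _ _)).trans hx
  obtain ⟨j, hj⟩ : ∃ j, j = Nat.log 2 x + 1 := ⟨_, rfl⟩
  have hlt : x < 2 ^ j := by
    rw [hj]
    exact Nat.lt_pow_succ_log_self (by norm_num) x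
  have hle : 2 ^ (Nat.log 2 x) ≤ x := Nat.pow_log_le_self 2 (by omega)
  have hjj : j0 ≤ j := by
    have h4 : j0 ≤ Nat.log 2 x := Nat.le_log_of_pow_le (by norm_num) hxa
    omega
  have e1 := hj0 j hjj
  have e2 := hx1 (2 ^ j) (hxb.trans hlt.le)
  rw [hexp] at e1
  have e3 : cnt (fun k => Odd k ∧ Opn L k ∧ ¬ ∃ n : ℕ, 1 ≤ n ∧ ω ∈ S (k * 2 ^ n + 1)) x ≤
      cnt (fun k => Odd k ∧ Opn L k ∧
        ∑ n ∈ Icc 1 (2 ^ (I + 1) * Nat.log 2 (2 ^ j)), prob g (k * 2 ^ n + 1) < M1 / δ) (2 ^ j) +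
      (((F j).filter fun k => ω ∈ Ak S (R j) k).card : ℝ) := by
    unfold cnt
    rw [← Nat.cast_add, Nat.cast_le]
    refine le_trans (Finset.card_le_card ?_) (Finset.card_union_le _ _)
    intro k hk
    have hk' := LOW_.memf.1 hk
    have hk1 := Finset.mem_range.1 hk'.1
    obtain ⟨hk2, hk3, hk4⟩ := hk'.2
    rw [Finset.mem_union]
    by_cases h : ∑ n ∈ Icc 1 (2 ^ (I + 1) * Nat.log 2 (2 ^ j)), prob g (k * 2 ^ n + 1) < M1 / δ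
    · left
      exact LOW_.memf.2 ⟨Finset.mem_range.2 (by omega), hk2, hk3, h⟩
    · right
      exact LOW_.memf.2 ⟨LOW_.memf.2 ⟨Finset.mem_range.2 (by omega), hk2, hk3,
        not_lt.1 h⟩, fun n hn hS => hk4 ⟨n, (Finset.mem_Icc.1 hn).1, hS⟩⟩
  have e4 : ((2 ^ j : ℕ) : ℝ) ≤ 2 * (x : ℝ) := by
    have h5 : 2 ^ j ≤ 2 * x := by
      rw [hj, pow_succ]
      omega
    exact_mod_cast h5
  have e5 : (1 : ℝ) ≤ ((2 ^ j : ℕ) : ℝ) := by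
    exact_mod_cast Nat.one_le_two_pow
  have e6 : (((F j).filter fun k => ω ∈ Ak S (R j) k).card : ℝ) ≤
      (ε / 32 + ε / 32) * (((2 ^ j : ℕ) : ℝ) + 1) := by
    refine e1.trans (le_of_eq ?_)
    push_cast
    ring
  have hx0 : (0 : ℝ) ≤ x := Nat.cast_nonneg x
  calc cnt (fun k => Odd k ∧ Opn L k ∧ ¬ ∃ n : ℕ, 1 ≤ n ∧ ω ∈ S (k * 2 ^ n + 1)) x
      ≤ ε / 8 * ((2 ^ j : ℕ) : ℝ) + (ε / 32 + ε / 32) * (((2 ^ j : ℕ) : ℝ) + 1) :=
        e3.trans (add_le_add e2 e6)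
    _ ≤ ε / 8 * ((2 ^ j : ℕ) : ℝ) + (ε / 32 + ε / 32) *
        (((2 ^ j : ℕ) : ℝ) + ((2 ^ j : ℕ) : ℝ)) := by gcongr
    _ = ε / 4 * ((2 ^ j : ℕ) : ℝ) := by ring
    _ ≤ ε / 4 * (2 * (x : ℝ)) := by gcongr
    _ ≤ ε * x := by nlinarith [mul_nonneg hε.le hx0]

end Pool.Agent.CGR
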