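import Pool.Agent.CGR.Targets

/-!
CGR, target MKV (MP_315051_nt): Markov's inequality.
-/

set_option autoImplicit false

open Finset MeasureTheory ProbabilityTheory

namespace Pool.Agent.CGR

namespace MKV_

open Classical in
/-- The good and the bad weights add up to `W`. -/
theorem split (I : ℕ) (J : ℕ → ℕ) (w : ℕ → ℝ) (G : ℕ → ℕ → ℕ → Prop) (k : ℕ) :
    ∑ i ∈ Icc 1 I, ∑ j ∈ range (J i), (if G i j k then w i else 0) +
      ∑ i ∈ Icc 1 I, ∑ j ∈ range (J i), (if G i j k then 0 else w i) =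
      ∑ i ∈ Icc 1 I, (J i : ℝ) * w i := by
  rw [← Finset.sum_add_distrib]
  refine Finset.sum_congr rfl fun i _ => ?_
  rw [← Finset.sum_add_distrib]
  have h : ∀ j ∈ range (J i), (if G i j k then w i else 0) + (if G i j k then 0 else w i) =
      w i := by
    intro j _
    by_cases hG : G i j k
    · rw [if_pos hG, if_pos hG, add_zero]
    · rw [if_neg hG, if_neg hG, zero_add]
  rw [Finset.sum_congr rfl h, Finset.sum_const, Finset.card_range, nsmul_eq_mul]

open Classical in
/-- The sum of the bad weights over all `k ∈ F`. -/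
theorem total (I : ℕ) (J : ℕ → ℕ) (w : ℕ → ℝ) (G : ℕ → ℕ → ℕ → Prop) (F : Finset ℕ) (a : ℝ)
    (hw : ∀ i ∈ Icc 1 I, 0 ≤ w i)
    (hc : ∀ i ∈ Icc 1 I, ∀ j < J i, ((F.filter fun k => ¬ G i j k).card : ℝ) ≤ a) :
    ∑ k ∈ F, ∑ i ∈ Icc 1 I, ∑ j ∈ range (J i), (if G i j k then 0 else w i) ≤
      (∑ i ∈ Icc 1 I, (J i : ℝ) * w i) * a := by
  rw [Finset.sum_comm, Finset.sum_mul]
  refine Finset.sum_le_sum fun i hi => ?_
  rw [Finset.sum_comm]
  have h : ∀ j ∈ range (J i), ∑ k ∈ F, (if G i j k then 0 else w i) ≤ w i * a := by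
    intro j hj
    have e : ∑ k ∈ F, (if G i j k then 0 else w i) =
        w i * ((F.filter fun k => ¬ G i j k).card : ℝ) := by
      have e1 : ∑ k ∈ F, (if G i j k then 0 else w i) =
          ∑ k ∈ F.filter fun k => ¬ G i j k, w i := by
        rw [Finset.sum_filter]
        refine Finset.sum_congr rfl fun k _ => ?_
        by_cases hG : G i j k
        · rw [if_pos hG, if_neg (not_not.2 hG)]
        · rw [if_neg hG, if_pos hG]
      rw [e1, Finset.sum_const, nsmul_eq_mul, mul_comm]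
    rw [e]
    exact mul_le_mul_of_nonneg_left (hc i hi j (Finset.mem_range.1 hj)) (hw i hi)
  refine (Finset.sum_le_sum h).trans (le_of_eq ?_)
  rw [Finset.sum_const, Finset.card_range, nsmul_eq_mul, mul_assoc]

end MKV_

open MKV_

theorem p_MKV : T_MKV := by
  classical
  intro I J w G F ε X W hε hX hW hw hWe hc
  have ht := total I J w G F (ε / 4 * X) hw hc
  rw [← hWe] at ht
  set S := F.filter fun k => ∑ i ∈ Icc 1 I, ∑ j ∈ range (J i), (if G i j k then w i else 0) <
    W / 2 with hS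
  have hb0 : ∀ k, 0 ≤ ∑ i ∈ Icc 1 I, ∑ j ∈ range (J i), (if G i j k then 0 else w i) := by
    intro k
    refine Finset.sum_nonneg fun i hi => Finset.sum_nonneg fun j _ => ?_
    by_cases hG : G i j k
    · rw [if_pos hG]
    · rw [if_neg hG]
      exact hw i hi
  have hb1 : ∀ k ∈ S, W / 2 ≤
      ∑ i ∈ Icc 1 I, ∑ j ∈ range (J i), (if G i j k then 0 else w i) := by
    intro k hk
    have h1 := (Finset.mem_filter.1 hk).2
    have h2 := split I J w G k
    rw [← hWe] at h2
    linarith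
  have h3 : (S.card : ℝ) * (W / 2) ≤
      ∑ k ∈ F, ∑ i ∈ Icc 1 I, ∑ j ∈ range (J i), (if G i j k then 0 else w i) := by
    have h4 : (S.card : ℝ) * (W / 2) = ∑ _k ∈ S, W / 2 := by
      rw [Finset.sum_const, nsmul_eq_mul]
    rw [h4]
    exact (Finset.sum_le_sum hb1).trans
      (Finset.sum_le_sum_of_subset_of_nonneg (Finset.filter_subset _ _) fun k _ _ => hb0 k)
  have h5 : (S.card : ℝ) * (W / 2) ≤ (ε / 2 * X) * (W / 2) := by
    refine (h3.trans ht).trans (le_of_eq ?_)
    ring
  exact le_of_mul_le_mul_right h5 (by positivity)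

end Pool.Agent.CGR
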