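import Pool.Agent.CGR.Targets

/-!
# CGR-PRL: a lower bound for the probabilities in a block
-/

set_option autoImplicit false

open Finset

namespace Pool.Agent.CGR

namespace PRL_

theorem VP_eq (z : ℕ) : VP z = ∏ p ∈ Pool.Agent.Cyclic.pr z, (1 - 1 / (p : ℝ)) := by
  unfold VP
  refine Finset.prod_congr ?_ fun _ _ => rfl
  ext p
  rw [mem_filter, mem_Icc, Pool.Agent.Cyclic.mem_pr]
  constructor
  · rintro ⟨⟨_, h2⟩, h3⟩
    exact ⟨h2, h3⟩
  · rintro ⟨h2, h3⟩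
    exact ⟨⟨h3.one_lt.le, h2⟩, h3⟩

theorem VP_pos (z : ℕ) : 0 < VP z := by
  rw [VP_eq]
  exact Finset.prod_pos fun p hp =>
    Pool.Agent.TSP.one_sub_inv_pos (Pool.Agent.Cyclic.mem_pr.1 hp).2

theorem VP_anti {z z' : ℕ} (h : z ≤ z') : VP z' ≤ VP z := by
  have h0 := VP_pos z
  unfold VP at h0 ⊢
  have hs : (Icc 1 z).filter Nat.Prime ⊆ (Icc 1 z').filter Nat.Prime :=
    Finset.filter_subset_filter _ (Finset.Icc_subset_Icc le_rfl h)
  rw [← Finset.prod_sdiff hs]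
  have h1 : ∏ p ∈ (Icc 1 z').filter Nat.Prime \ (Icc 1 z).filter Nat.Prime,
      (1 - 1 / (p : ℝ)) ≤ 1 := by
    refine Finset.prod_le_one ?_ ?_
    · intro p hp
      exact (Pool.Agent.TSP.one_sub_inv_pos (mem_filter.1 (mem_sdiff.1 hp).1).2).le
    · intro p _
      have h1 : (0 : ℝ) ≤ 1 / (p : ℝ) := by positivity
      linarith
  nlinarith

theorem VP_log (z : ℕ) : VP z * Real.log (z + 1) ≤ 1 := by
  rw [VP_eq]
  exact Pool.Agent.TSP.mertens z

end PRL_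

open PRL_ in
/-- PRL. -/
theorem p_PRL : T_PRL := by
  intro g N i k n hg hN hi hk hkN hn1 hn2 hS
  obtain ⟨m, hm⟩ : ∃ m, m = k * 2 ^ n + 1 := ⟨_, rfl⟩
  have hp0 : 0 < 2 ^ n := by positivity
  have hb : bb N i ≤ m := by
    rw [hm]
    unfold bb
    have h1 : 2 ^ (2 ^ i * N) ≤ 2 ^ n := Nat.pow_le_pow_right (by norm_num) hn1.le
    have h2 : 1 * 2 ^ n ≤ k * 2 ^ n := Nat.mul_le_mul_right _ hk
    omega
  have hm4 : m ≤ 2 ^ (4 * (2 ^ i * N)) := by
    have h1 : 2 ^ n ≤ 2 ^ (2 ^ (i + 1) * N) := Nat.pow_le_pow_right (by norm_num) hn2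
    have h2 : k * 2 ^ n ≤ 2 ^ (N + 1) * 2 ^ (2 ^ (i + 1) * N) := Nat.mul_le_mul hkN h1
    rw [← pow_add] at h2
    have h3 : 0 < 2 ^ (N + 1 + 2 ^ (i + 1) * N) := by positivity
    have h4 : m ≤ 2 ^ (N + 1 + 2 ^ (i + 1) * N + 1) := by
      rw [pow_succ]
      omega
    refine h4.trans (Nat.pow_le_pow_right (by norm_num) ?_)
    have h5 : 2 ^ 1 ≤ 2 ^ i := Nat.pow_le_pow_right (by norm_num) hi
    have h6 : 2 * N ≤ 2 ^ i * N := Nat.mul_le_mul_right _ (by simpa using h5)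
    have h7 : 2 ^ (i + 1) * N = 2 * (2 ^ i * N) := by ring
    omega
  have hgm : g (bb N i) ≤ g m := hg hb
  have hgz : g m ≤ zz g N i := by
    unfold zz
    refine hg ?_
    unfold bb
    rw [← pow_mul, mul_comm (2 ^ i * N) 4]
    exact hm4
  have hno : ¬ ∃ p : ℕ, p.Prime ∧ p ≤ g m ∧ p ∣ m := by
    rintro ⟨p, h1, h2, h3⟩
    rw [hm] at h3
    have h4 := hS p h1 h3
    omega
  rw [← hm]
  unfold qq prob
  rw [if_neg hno]
  refine min_le_min le_rfl ?_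
  have hm2 : 2 ≤ m := by
    rw [hm]
    have h2 : 1 * 2 ^ n ≤ k * 2 ^ n := Nat.mul_le_mul_right _ hk
    omega
  have hmr : (2 : ℝ) ≤ m := by exact_mod_cast hm2
  have hlm : 0 < Real.log m := Real.log_pos (by linarith)
  have hl2 : 0 < Real.log 2 := Real.log_pos (by norm_num)
  have hlm4 : Real.log m ≤ 4 * (2 ^ i * N) * Real.log 2 := by
    have h1 : (m : ℝ) ≤ 2 ^ (4 * (2 ^ i * N)) := by exact_mod_cast hm4
    have h2 := Real.log_le_log (by linarith) h1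
    rw [Real.log_pow] at h2
    push_cast at h2
    exact h2
  have hV := VP_pos (g m)
  have hV1 := VP_anti hgm
  have hV2 := VP_log (g (bb N i))
  have hl : 0 ≤ Real.log ((g (bb N i) : ℝ) + 1) := Real.log_nonneg (by
    have : (0 : ℝ) ≤ g (bb N i) := Nat.cast_nonneg _
    linarith)
  have hNr : (0 : ℝ) < N := by exact_mod_cast hN
  have hd : 0 < 4 * (2 ^ i * (N : ℝ)) * Real.log 2 := by positivity
  rw [div_le_div_iff₀ hd (mul_pos hV hlm)]
  have h1 : Real.log ((g (bb N i) : ℝ) + 1) * VP (g m) ≤ 1 := by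
    refine le_trans ?_ hV2
    rw [mul_comm (VP (g (bb N i)))]
    exact mul_le_mul_of_nonneg_left hV1 hl
  calc Real.log ((g (bb N i) : ℝ) + 1) * (VP (g m) * Real.log m)
      = Real.log ((g (bb N i) : ℝ) + 1) * VP (g m) * Real.log m := by ring
    _ ≤ 1 * Real.log m := mul_le_mul_of_nonneg_right h1 hlm.le
    _ ≤ 1 * (4 * (2 ^ i * (N : ℝ)) * Real.log 2) := by
        rw [one_mul, one_mul]
        exact hlm4

end Pool.Agent.CGR
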