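import Pool.Agent.CGR.Targets

/-!
CGR (MP_315051_nt): almost all open odd `k` have a large sum of probabilities (`T_STA`).
-/

set_option autoImplicit false

open Finset

namespace Pool.Agent.CGR

open Pool.Agent.SPA

namespace STA_

/-- `z ^ s ≤ x` for the sieving limits. -/
theorem pow_le {g : ℕ → ℕ} (I s m2 N i x : ℕ) (hs : 1 ≤ s)
    (h2 : ∀ m ≥ m2, (g m : ℝ) ≤ (m : ℝ) ^ ((1 : ℝ) / (4 * 2 ^ I * s)))
    (hi : i ≤ I) (hm : m2 ≤ bb N i ^ 4) (hx : 2 ^ N ≤ x) : zz g N i ^ s ≤ x := by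
  have h3 := h2 _ hm
  have hm3 : bb N i ^ 4 ≤ (2 ^ N) ^ (4 * 2 ^ I) := by
    rw [bb, ← pow_mul, ← pow_mul]
    refine Nat.pow_le_pow_right (by norm_num) ?_
    have h4 : 2 ^ i ≤ 2 ^ I := Nat.pow_le_pow_right (by norm_num) hi
    calc 2 ^ i * N * 4 ≤ 2 ^ I * N * 4 := by gcongr
      _ = N * (4 * 2 ^ I) := by ring
  have hc : (0 : ℝ) < 1 / (4 * 2 ^ I * s) := by
    have : (0 : ℝ) < s := by exact_mod_cast hs
    positivity
  have hs0 : (s : ℝ) ≠ 0 := by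
    have : (0 : ℝ) < s := by exact_mod_cast hs
    exact this.ne'
  have h5 : ((bb N i ^ 4 : ℕ) : ℝ) ^ ((1 : ℝ) / (4 * 2 ^ I * s)) ≤
      ((2 : ℝ) ^ N) ^ (1 / (s : ℝ)) := by
    have h6 : ((bb N i ^ 4 : ℕ) : ℝ) ≤ ((2 : ℝ) ^ N) ^ (4 * 2 ^ I) := by exact_mod_cast hm3
    refine (Real.rpow_le_rpow (by positivity) h6 hc.le).trans (le_of_eq ?_)
    rw [← Real.rpow_natCast ((2 : ℝ) ^ N) (4 * 2 ^ I), ← Real.rpow_mul (by positivity)]
    congr 1
    push_cast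
    field_simp
  have h7 : ((zz g N i : ℕ) : ℝ) ^ s ≤ (2 : ℝ) ^ N := by
    have h8 : ((zz g N i : ℕ) : ℝ) ≤ ((2 : ℝ) ^ N) ^ (1 / (s : ℝ)) := h3.trans h5
    calc ((zz g N i : ℕ) : ℝ) ^ s ≤ (((2 : ℝ) ^ N) ^ (1 / (s : ℝ))) ^ s := by gcongr
      _ = (2 : ℝ) ^ N := by
        rw [← Real.rpow_natCast, ← Real.rpow_mul (by positivity), one_div_mul_cancel hs0,
          Real.rpow_one]
  have h9 : zz g N i ^ s ≤ 2 ^ N := by exact_mod_cast h7
  exact h9.trans hx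

theorem self_le_bb (N i : ℕ) : N ≤ bb N i ^ 4 := by
  have h1 : N ≤ 2 ^ i * N := Nat.le_mul_of_pos_left _ (by positivity)
  have h2 : 2 ^ i * N ≤ bb N i := (Nat.lt_two_pow_self).le
  have h3 : bb N i ≤ bb N i ^ 4 := Nat.le_self_pow (by norm_num) _
  exact h1.trans (h2.trans h3)

open Classical in
theorem cnt_le_card (P : ℕ → Prop) (x : ℕ) (S : Finset ℕ) (h : ∀ k, k ≤ x → P k → k ∈ S) :
    cnt P x ≤ S.card := by
  unfold cnt
  refine Nat.cast_le.2 (card_le_card fun k hk => ?_)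
  obtain ⟨h1, h2⟩ := mem_filter.1 hk
  exact h k (by have := mem_range.1 h1; omega) h2

open Classical in
theorem card_le_cnt (P : ℕ → Prop) (x : ℕ) (S : Finset ℕ) (h : ∀ k ∈ S, k ≤ x ∧ P k) :
    (S.card : ℝ) ≤ cnt P x := by
  unfold cnt
  refine Nat.cast_le.2 (card_le_card fun k hk => ?_)
  exact mem_filter.2 ⟨mem_range.2 (by have := (h k hk).1; omega), (h k hk).2⟩

end STA_

open Classical in
theorem p_STA (h1 : T_WIN) (h2 : T_JQ) (h3 : T_SUM) (h4 : T_MKV) : T_STA := by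
  intro g hg ε hε
  obtain ⟨s, hs, h1⟩ := h1
  obtain ⟨L, B, z0, hL, hB, h1⟩ := h1 (ε / 4) (by positivity)
  obtain ⟨D, hD, h2⟩ := h2 g hg
  refine ⟨L, hL, fun M0 => ?_⟩
  have hD0 : (0 : ℝ) < D := by exact_mod_cast hD
  have hB0 : (0 : ℝ) < B := by exact_mod_cast hB
  set I : ℕ := ⌈2 * D * B * M0⌉₊ + 1 with hI
  have hI1 : 1 ≤ I := by omega
  have hI0 : (0 : ℝ) < I := by exact_mod_cast hI1
  have hIM : M0 ≤ I / (D * B) / 2 := by
    have h5 : 2 * D * B * M0 ≤ (I : ℝ) := by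
      refine (Nat.le_ceil _).trans ?_
      rw [hI]
      push_cast
      linarith
    rw [div_div, le_div_iff₀ (by positivity)]
    linarith
  obtain ⟨N0, h2⟩ := h2 B I hB
  obtain ⟨m1, hm1⟩ := Filter.eventually_atTop.1 (hg.top.eventually_ge_atTop z0)
  have hc : (0 : ℝ) < 1 / (4 * 2 ^ I * s) := by
    have : (0 : ℝ) < s := by exact_mod_cast hs
    positivity
  obtain ⟨m2, hm2⟩ := hg.pow _ hc
  refine ⟨I, 2 ^ (max (max N0 1) (max m1 m2)), fun x hx => ?_⟩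
  set N : ℕ := Nat.log 2 x with hN
  have hx0 : x ≠ 0 := by
    have : 0 < 2 ^ (max (max N0 1) (max m1 m2)) := by positivity
    omega
  have hNl : max (max N0 1) (max m1 m2) ≤ N :=
    Nat.le_log_of_pow_le (by norm_num) hx
  have hN0 : N0 ≤ N := ((le_max_left _ _).trans (le_max_left _ _)).trans hNl
  have hN1 : 1 ≤ N := ((le_max_right _ _).trans (le_max_left _ _)).trans hNl
  have hNm1 : m1 ≤ N := ((le_max_left _ _).trans (le_max_right _ _)).trans hNl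
  have hNm2 : m2 ≤ N := ((le_max_right _ _).trans (le_max_right _ _)).trans hNl
  have hNx : 2 ^ N ≤ x := Nat.pow_log_le_self 2 hx0
  have hxN : x < 2 ^ (N + 1) := Nat.lt_pow_succ_log_self (by norm_num) x
  have hJQ := fun i hi1 hi2 => h2 N hN0 i hi1 hi2
  set w : ℕ → ℝ := fun i => 1 / (D * B * JJ g B N i) with hw
  have hwq : ∀ i ∈ Icc 1 I, w i ≤ qq g N i := by
    intro i hi
    obtain ⟨hi1, hi2⟩ := mem_Icc.1 hi
    obtain ⟨-, hJ, hq⟩ := hJQ i hi1 hi2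
    have hJ0 : (0 : ℝ) < JJ g B N i := by exact_mod_cast hJ
    rw [hw]
    simp only
    rw [← div_div, div_le_iff₀ hJ0, mul_comm (qq g N i)]
    exact hq
  have hw0 : ∀ i ∈ Icc 1 I, 0 ≤ w i := fun i _ => by
    rw [hw]
    positivity
  have hW : (I : ℝ) / (D * B) = ∑ i ∈ Icc 1 I, (JJ g B N i : ℝ) * w i := by
    have h5 : ∀ i ∈ Icc 1 I, (JJ g B N i : ℝ) * w i = 1 / (D * B) := by
      intro i hi
      obtain ⟨hi1, hi2⟩ := mem_Icc.1 hi
      obtain ⟨-, hJ, -⟩ := hJQ i hi1 hi2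
      have hJ0 : (0 : ℝ) < JJ g B N i := by exact_mod_cast hJ
      rw [hw]
      field_simp
    rw [sum_congr rfl h5, sum_const, Nat.card_Icc, nsmul_eq_mul]
    simp only [Nat.add_sub_cancel]
    ring
  set F : Finset ℕ := (range (x + 1)).filter fun k => Odd k ∧ Opn L k with hF
  have h6 := h4 I (fun i => JJ g B N i) w (fun i j k => Win g B N i j k) F ε x
    ((I : ℝ) / (D * B)) hε (Nat.cast_nonneg _) (by positivity) hw0 hW (by
      intro i hi j _
      obtain ⟨hi1, hi2⟩ := mem_Icc.1 hi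
      have hz : z0 ≤ zz g N i := hm1 _ (hNm1.trans (STA_.self_le_bb N i))
      have hzs : zz g N i ^ s ≤ x :=
        STA_.pow_le I s m2 N i x hs hm2 hi2 (hNm2.trans (STA_.self_le_bb N i)) hNx
      refine le_trans ?_ (h1 (zz g N i) x (2 ^ i * N + j * hh g B N i) hz hzs)
      have h7 : 2 ^ i * N + j * hh g B N i + B * Nat.log 2 (zz g N i) =
          2 ^ i * N + (j + 1) * hh g B N i := by
        rw [hh]
        ring
      rw [h7]
      refine STA_.card_le_cnt _ x _ fun k hk => ?_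
      obtain ⟨hkF, hk4⟩ := mem_filter.1 hk
      obtain ⟨hk1, hk2, hk3⟩ := mem_filter.1 hkF
      have hkx := mem_range.1 hk1
      exact ⟨by omega, hk2, hk3, hk4⟩)
  have h8 : cnt (fun k => Odd k ∧ Opn L k ∧
      ∑ n ∈ Icc 1 (2 ^ (I + 1) * N), prob g (k * 2 ^ n + 1) < M0) x ≤
      ((F.filter fun k => ∑ i ∈ Icc 1 I, ∑ j ∈ range (JJ g B N i),
        (if Win g B N i j k then w i else 0) < (I : ℝ) / (D * B) / 2).card : ℝ) := by
    refine STA_.cnt_le_card _ x _ fun k hkx hk => ?_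
    obtain ⟨hk2, hk3, hk4⟩ := hk
    have hk1 : k ∈ range (x + 1) := mem_range.2 (by omega)
    refine mem_filter.2 ⟨mem_filter.2 ⟨hk1, hk2, hk3⟩, ?_⟩
    have h9 := h3 g B N I k hg.mono hN1 hk2.pos (hkx.trans hxN.le)
    have h10 : ∑ i ∈ Icc 1 I, ∑ j ∈ range (JJ g B N i),
        (if Win g B N i j k then w i else 0) ≤
        ∑ i ∈ Icc 1 I, ∑ j ∈ range (JJ g B N i),
        (if Win g B N i j k then qq g N i else 0) := by
      refine sum_le_sum fun i hi => sum_le_sum fun j _ => ?_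
      split_ifs
      · exact hwq i hi
      · exact le_rfl
    linarith
  have hx1 : (0 : ℝ) ≤ x := Nat.cast_nonneg _
  refine (h8.trans h6).trans ?_
  nlinarith

end Pool.Agent.CGR
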