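import Pool.Agent.CGR.Targets

/-!
CGR: proof of T_SUM from T_PRL
-/

set_option autoImplicit false

open Finset MeasureTheory ProbabilityTheory

namespace Pool.Agent.CGR

open Pool.Agent.SPA
open Pool.Agent.SPU (T_MO2)

namespace SUM_

theorem prob_nonneg (g : ℕ → ℕ) (m : ℕ) (hm : 1 ≤ m) : 0 ≤ prob g m := by
  unfold prob
  split_ifs
  · exact le_rfl
  · have h1 : 0 ≤ VP (g m) := by
      unfold VP
      refine Finset.prod_nonneg fun p hp => ?_
      have hp1 : (1 : ℝ) ≤ p := by exact_mod_cast (Finset.mem_Icc.1 (Finset.mem_filter.1 hp).1).1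
      have h2 : 1 / (p : ℝ) ≤ 1 := by
        rw [div_le_one (by linarith)]
        exact hp1
      linarith
    have h2 : 0 ≤ Real.log m := Real.log_nonneg (by exact_mod_cast hm)
    exact le_min zero_le_one (div_nonneg zero_le_one (mul_nonneg h1 h2))

/-- Consecutive windows. -/
theorem windows (P : ℕ → ℝ) (c h : ℕ) (J : ℕ) :
    ∑ j ∈ range J, ∑ n ∈ Ioc (c + j * h) (c + (j + 1) * h), P n =
      ∑ n ∈ Ioc c (c + J * h), P n := by
  induction J with
  | zero => simp
  | succ J ih =>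
    rw [Finset.sum_range_succ, ih]
    refine Finset.sum_Ioc_consecutive P (Nat.le_add_right _ _) ?_
    exact Nat.add_le_add_left (Nat.mul_le_mul_right h (Nat.le_succ J)) c

theorem Icc_eq (m : ℕ) : Icc 1 m = Ioc 0 m := by
  ext n
  simp only [Finset.mem_Icc, Finset.mem_Ioc]
  omega

open Classical in
theorem block (hP : T_PRL) (g : ℕ → ℕ) (B N i k : ℕ) (hg : Monotone g) (hN : 1 ≤ N)
    (hi : 1 ≤ i) (hk : 1 ≤ k) (hk2 : k ≤ 2 ^ (N + 1)) :
    ∑ j ∈ range (JJ g B N i), (if Win g B N i j k then qq g N i else 0) ≤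
      ∑ n ∈ Ioc (2 ^ i * N) (2 ^ (i + 1) * N), prob g (k * 2 ^ n + 1) := by
  have hnn : ∀ n : ℕ, 0 ≤ prob g (k * 2 ^ n + 1) := fun n => prob_nonneg g _ (by omega)
  have hJ : JJ g B N i * hh g B N i ≤ 2 ^ i * N := Nat.div_mul_le_self _ _
  have h2 : 2 ^ (i + 1) * N = 2 ^ i * N + 2 ^ i * N := by ring
  have hw : ∀ j ∈ range (JJ g B N i), (if Win g B N i j k then qq g N i else 0) ≤
      ∑ n ∈ Ioc (2 ^ i * N + j * hh g B N i) (2 ^ i * N + (j + 1) * hh g B N i),
        prob g (k * 2 ^ n + 1) := by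
    intro j hj
    split_ifs with hW
    · obtain ⟨n, hn1, hn2, hS⟩ := hW
      have hj' : (j + 1) * hh g B N i ≤ JJ g B N i * hh g B N i :=
        Nat.mul_le_mul_right _ (Finset.mem_range.1 hj)
      have hn3 : 2 ^ i * N < n := lt_of_le_of_lt (Nat.le_add_right _ _) hn1
      have hn4 : n ≤ 2 ^ (i + 1) * N := by
        rw [h2]
        exact le_trans hn2 (Nat.add_le_add_left (le_trans hj' hJ) _)
      refine le_trans (hP g N i k n hg hN hi hk hk2 hn3 hn4 hS) ?_
      exact Finset.single_le_sum (f := fun n => prob g (k * 2 ^ n + 1))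
        (fun m _ => hnn m) (Finset.mem_Ioc.2 ⟨hn1, hn2⟩)
    · exact Finset.sum_nonneg fun n _ => hnn n
  refine le_trans (Finset.sum_le_sum hw) ?_
  rw [windows (fun n => prob g (k * 2 ^ n + 1))]
  refine Finset.sum_le_sum_of_subset_of_nonneg ?_ fun n _ _ => hnn n
  refine Finset.Ioc_subset_Ioc_right ?_
  rw [h2]
  exact Nat.add_le_add_left hJ _

end SUM_

open Classical in
theorem p_SUM (h : T_PRL) : T_SUM := by
  intro g B N I k hg hN hk hk2
  have hnn : ∀ n : ℕ, 0 ≤ prob g (k * 2 ^ n + 1) := fun n => SUM_.prob_nonneg g _ (by omega)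
  rw [SUM_.Icc_eq (2 ^ (I + 1) * N)]
  induction I with
  | zero =>
    rw [show (Icc 1 0 : Finset ℕ) = ∅ from rfl, Finset.sum_empty]
    exact Finset.sum_nonneg fun n _ => hnn n
  | succ I ih =>
    rw [Finset.sum_Icc_succ_top (by omega : 1 ≤ I + 1)]
    have hb := SUM_.block h g B N (I + 1) k hg hN (by omega) hk hk2
    have hc := Finset.sum_Ioc_consecutive (fun n => prob g (k * 2 ^ n + 1))
      (Nat.zero_le (2 ^ (I + 1) * N))
      (Nat.mul_le_mul_right N (Nat.pow_le_pow_right (by norm_num) (by omega)) :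
        2 ^ (I + 1) * N ≤ 2 ^ (I + 1 + 1) * N)
    linarith

end Pool.Agent.CGR
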