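import Pool.Agent.CGR.Targets
import Pool.Agent.SPA.P_FIN

/-!
CGR (MP_315051_nt): proof of the target UPP
-/

set_option autoImplicit false

open Finset MeasureTheory ProbabilityTheory

namespace Pool.Agent.CGR

open Pool.Agent.SPA

namespace UPP_

theorem null {Ω : Type} [MeasurableSpace Ω] (μ : Measure Ω) (S : ℕ → Set Ω) :
    ∀ᵐ ω ∂μ, ∀ m : ℕ, μ (S m) = 0 → ω ∉ S m := by
  rw [ae_all_iff]
  intro m
  by_cases h : μ (S m) = 0
  · filter_upwards [measure_eq_zero_iff_ae_notMem.1 h] with ω hω _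
    exact hω
  · exact Filter.Eventually.of_forall fun ω h' => absurd h' h

end UPP_

theorem p_UPP (h : T_OPC) : T_UPP := by
  intro g hg Ω _ μ _ δ S hS
  filter_upwards [UPP_.null μ S] with ω hω
  intro L hL
  obtain ⟨m0, hm0⟩ := Filter.eventually_atTop.1 (hg.top.eventually_ge_atTop (2 ^ L))
  refine ⟨m0 + 1, fun x => ?_⟩
  have h5 : cnt (fun k => Odd k ∧ ∃ n : ℕ, 1 ≤ n ∧ ω ∈ S (k * 2 ^ n + 1)) x ≤
      cnt (fun k => Odd k ∧ Opn L k) x + cnt (fun k => (k : ℝ) < (m0 : ℝ)) x := by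
    apply FIN_.cnt_le_add
    intro k _ hk
    by_cases ho : Opn L k
    · exact Or.inl ⟨hk.1, ho⟩
    · right
      by_contra hkk
      have hkk' : m0 ≤ k := by exact_mod_cast not_lt.1 hkk
      obtain ⟨n, hn, hn2⟩ := hk.2
      obtain ⟨p, hp, hpd, hpk⟩ := h L k hL ho n hn
      have h7 : 2 ≤ 2 ^ L := by
        calc 2 = 2 ^ 1 := rfl
          _ ≤ 2 ^ L := Nat.pow_le_pow_right (by norm_num) hL
      have h8 : p ≤ 2 ^ L := (Nat.le_of_dvd (by omega) hpd).trans (Nat.sub_le _ _)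
      have h9 : m0 ≤ k * 2 ^ n + 1 := by
        have : k * 1 ≤ k * 2 ^ n := Nat.mul_le_mul_left k Nat.one_le_two_pow
        omega
      exact hω _ (hS.zero _ ⟨p, hp, h8.trans (hm0 _ h9), hpk⟩) hn2
  have h6 := FIN_.cnt_small (m0 : ℝ) (Nat.cast_nonneg m0) x
  push_cast
  linarith

end Pool.Agent.CGR
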