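import Pool.Agent.CGR.Targets

/-!
# CGR, VAR: Chebyshev's inequality for pairwise independent events
-/

set_option autoImplicit false

open Finset MeasureTheory ProbabilityTheory

namespace Pool.Agent.CGR

namespace VAR_

variable {Ω : Type} [MeasurableSpace Ω]

/-- the centred indicator -/
noncomputable def Y (μ : Measure Ω) (A : ℕ → Set Ω) (k : ℕ) (ω : Ω) : ℝ :=
  (A k).indicator (fun _ => (1 : ℝ)) ω - μ.real (A k)

theorem int_ind (μ : Measure Ω) [IsProbabilityMeasure μ] {B : Set Ω} (hB : MeasurableSet B) :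
    Integrable (B.indicator (fun _ => (1 : ℝ))) μ ∧
      ∫ ω, B.indicator (fun _ => (1 : ℝ)) ω ∂μ = μ.real B := by
  refine ⟨(integrable_const (1 : ℝ)).indicator hB, ?_⟩
  rw [integral_indicator hB]
  simp

theorem prod_eq (μ : Measure Ω) (A : ℕ → Set Ω) (k k' : ℕ) (ω : Ω) :
    Y μ A k ω * Y μ A k' ω = (((A k ∩ A k').indicator (fun _ => (1 : ℝ)) ω -
      μ.real (A k') * (A k).indicator (fun _ => (1 : ℝ)) ω) -
      μ.real (A k) * (A k').indicator (fun _ => (1 : ℝ)) ω) +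
      μ.real (A k) * μ.real (A k') := by
  have h : (A k ∩ A k').indicator (fun _ => (1 : ℝ)) ω =
      (A k).indicator (fun _ => (1 : ℝ)) ω * (A k').indicator (fun _ => (1 : ℝ)) ω := by
    by_cases h1 : ω ∈ A k <;> by_cases h2 : ω ∈ A k' <;> simp [h1, h2]
  rw [h]
  unfold Y
  ring

theorem cov (μ : Measure Ω) [IsProbabilityMeasure μ] {A : ℕ → Set Ω} {k k' : ℕ}
    (hk : MeasurableSet (A k)) (hk' : MeasurableSet (A k')) :
    Integrable (fun ω => Y μ A k ω * Y μ A k' ω) μ ∧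
      ∫ ω, Y μ A k ω * Y μ A k' ω ∂μ =
        μ.real (A k ∩ A k') - μ.real (A k) * μ.real (A k') := by
  obtain ⟨i1, e1⟩ := int_ind μ hk
  obtain ⟨i2, e2⟩ := int_ind μ hk'
  obtain ⟨i3, e3⟩ := int_ind μ (hk.inter hk')
  have i4 := i1.const_mul (μ.real (A k'))
  have i5 := i2.const_mul (μ.real (A k))
  have i6 : Integrable (fun _ : Ω => μ.real (A k) * μ.real (A k')) μ := integrable_const _
  have hfun : (fun ω => Y μ A k ω * Y μ A k' ω) = fun ω =>
      (((A k ∩ A k').indicator (fun _ => (1 : ℝ)) ω -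
      μ.real (A k') * (A k).indicator (fun _ => (1 : ℝ)) ω) -
      μ.real (A k) * (A k').indicator (fun _ => (1 : ℝ)) ω) +
      μ.real (A k) * μ.real (A k') := funext fun ω => prod_eq μ A k k' ω
  rw [hfun]
  refine ⟨((i3.sub i4).sub i5).add i6, ?_⟩
  have s1 := integral_add ((i3.sub i4).sub i5) i6
  have s2 := integral_sub (i3.sub i4) i5
  have s3 := integral_sub i3 i4
  simp only [Pi.sub_apply] at s1 s2 s3
  rw [s1, s2, s3, integral_const_mul, integral_const_mul, e1, e2, e3, integral_const]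
  simp only [probReal_univ, smul_eq_mul, one_mul]
  ring

end VAR_

open VAR_ in
theorem p_VAR : T_VAR := by
  classical
  intro Ω _ μ _ A F t ht hA hind
  have hsq : ∀ ω, (∑ k ∈ F, Y μ A k ω) ^ 2 =
      ∑ k ∈ F, ∑ k' ∈ F, Y μ A k ω * Y μ A k' ω := by
    intro ω
    rw [pow_two, Finset.sum_mul_sum]
  have hint : Integrable (fun ω => (∑ k ∈ F, Y μ A k ω) ^ 2) μ := by
    simp only [hsq]
    exact integrable_finsetSum _ fun k hk => integrable_finsetSum _ fun k' hk' =>
      (cov μ (hA k hk) (hA k' hk')).1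
  have hval : ∫ ω, (∑ k ∈ F, Y μ A k ω) ^ 2 ∂μ ≤ (F.card : ℝ) := by
    simp only [hsq]
    rw [integral_finsetSum _ fun k hk => integrable_finsetSum _ fun k' hk' =>
      (cov μ (hA k hk) (hA k' hk')).1]
    calc ∑ k ∈ F, ∫ ω, ∑ k' ∈ F, Y μ A k ω * Y μ A k' ω ∂μ
        ≤ ∑ k ∈ F, (1 : ℝ) := by
          refine Finset.sum_le_sum fun k hk => ?_
          rw [integral_finsetSum _ fun k' hk' => (cov μ (hA k hk) (hA k' hk')).1]
          rw [Finset.sum_eq_single_of_mem k hk fun k' hk' hne => by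
            rw [(cov μ (hA k hk) (hA k' hk')).2, hind k hk k' hk' hne.symm, sub_self]]
          rw [(cov μ (hA k hk) (hA k hk)).2, Set.inter_self]
          have h1 : μ.real (A k) ≤ 1 := measureReal_le_one
          have h2 : 0 ≤ μ.real (A k) * μ.real (A k) := by positivity
          linarith
      _ = (F.card : ℝ) := by rw [Finset.sum_const, nsmul_eq_mul, mul_one]
  have hmk := mul_meas_ge_le_integral_of_nonneg (μ := μ)
    (Filter.Eventually.of_forall fun ω => sq_nonneg (∑ k ∈ F, Y μ A k ω)) hint (t ^ 2)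
  have hsub : {ω | ∑ k ∈ F, μ.real (A k) + t ≤ ((F.filter fun k => ω ∈ A k).card : ℝ)} ⊆
      {ω | t ^ 2 ≤ (∑ k ∈ F, Y μ A k ω) ^ 2} := by
    intro ω hω
    have h1 : ((F.filter fun k => ω ∈ A k).card : ℝ) =
        ∑ k ∈ F, (A k).indicator (fun _ => (1 : ℝ)) ω := by
      rw [Finset.card_filter]
      push_cast
      refine Finset.sum_congr rfl fun k _ => ?_
      by_cases h : ω ∈ A k <;> simp [h]
    have h2 : ∑ k ∈ F, μ.real (A k) + t ≤ ∑ k ∈ F, (A k).indicator (fun _ => (1 : ℝ)) ω := by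
      rw [← h1]
      exact hω
    have h3 : t ≤ ∑ k ∈ F, Y μ A k ω := by
      unfold Y
      rw [Finset.sum_sub_distrib]
      linarith
    exact pow_le_pow_left₀ ht.le h3 2
  have h4 : μ.real {ω | ∑ k ∈ F, μ.real (A k) + t ≤
      ((F.filter fun k => ω ∈ A k).card : ℝ)} ≤
      μ.real {ω | t ^ 2 ≤ (∑ k ∈ F, Y μ A k ω) ^ 2} := measureReal_mono hsub
  have h5 : 0 < t ^ 2 := by positivity
  rw [le_div_iff₀ h5]
  calc μ.real {ω | ∑ k ∈ F, μ.real (A k) + t ≤ ((F.filter fun k => ω ∈ A k).card : ℝ)} * t ^ 2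
      ≤ μ.real {ω | t ^ 2 ≤ (∑ k ∈ F, Y μ A k ω) ^ 2} * t ^ 2 := by gcongr
    _ ≤ (F.card : ℝ) := by
      rw [mul_comm]
      exact hmk.trans hval

end Pool.Agent.CGR
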