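import Pool.Agent.CGR.Targets
import Pool.Agent.SPU.P_MN2
import Pool.Agent.SPA.P_GAP

/-!
CGR: target WIN (MP_315051_nt)
-/

set_option autoImplicit false

open Finset

namespace Pool.Agent.CGR

open Pool.Agent.SPA
open Pool.Agent.SPU (T_MO2)

namespace WIN_

/-- Shift of the exponent by a multiple of `L`. -/
theorem shift {L κ b : ℕ} (m : ℕ) (h : Nat.Coprime (κ * 2 ^ b + 1) (2 ^ L - 1)) :
    Nat.Coprime (κ * 2 ^ (b + L * m) + 1) (2 ^ L - 1) := by
  have h1 : 2 ^ L - 1 ∣ (2 ^ L) ^ m - 1 := by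
    have := Nat.sub_dvd_pow_sub_pow (2 ^ L) 1 m
    rwa [one_pow] at this
  obtain ⟨q, hq⟩ := h1
  have h2 : (2 ^ L) ^ m = (2 ^ L - 1) * q + 1 := by
    have : 1 ≤ (2 ^ L) ^ m := Nat.one_le_pow _ _ (by positivity)
    omega
  have h3 : κ * 2 ^ (b + L * m) + 1 = κ * 2 ^ b + 1 + (κ * 2 ^ b * q) * (2 ^ L - 1) := by
    rw [pow_add, pow_mul, h2]
    ring
  rw [h3, Nat.coprime_add_mul_right_left]
  exact h

/-- The exponent in a given window of length `L`. -/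
theorem expo {L u : ℕ} (hL : 1 ≤ L) {κ : ℕ} (h : Opn L κ) : ∃ a : ℕ, u < a ∧ a ≤ u + L ∧
    Nat.Coprime (κ * 2 ^ a + 1) (2 ^ L - 1) := by
  obtain ⟨b, hb1, hb2, hb3⟩ := h
  refine ⟨b + L * ((u + L - b) / L), ?_, ?_, shift _ hb3⟩
  · have h1 := Nat.lt_mul_div_succ (u + L - b) (by omega : 0 < L)
    rw [mul_add, mul_one] at h1
    omega
  · have h1 := Nat.mul_div_le (u + L - b) L
    omega

theorem log_le {z : ℕ} (hz : 2 ≤ z) : Real.log z ≤ 2 * (Nat.log 2 z : ℝ) := by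
  have h1 : z < 2 ^ (Nat.log 2 z + 1) := Nat.lt_pow_succ_log_self (by norm_num) z
  have h2 : 1 ≤ Nat.log 2 z := Nat.log_pos (by norm_num) hz
  have h3 : (z : ℝ) ≤ (2 : ℝ) ^ (Nat.log 2 z + 1) := by exact_mod_cast h1.le
  have h4 : Real.log z ≤ (Nat.log 2 z + 1 : ℕ) * Real.log 2 := by
    rw [← Real.log_pow]
    exact Real.log_le_log (by exact_mod_cast (by omega : 0 < z)) h3
  have h5 : Real.log 2 ≤ 1 := by
    have := Real.log_two_lt_d9
    linarith
  have h6 : (1 : ℝ) ≤ (Nat.log 2 z : ℝ) := by exact_mod_cast h2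
  push_cast at h4
  nlinarith

theorem len {L z T : ℕ} {b : ℝ} (hb : 0 < b) (hz : 2 ≤ z) (hT : T = ⌈b * Real.log z⌉₊) :
    L + L * T ≤ (⌈2 * L * (b + 1)⌉₊ + 1) * Nat.log 2 z := by
  have h2 : 1 ≤ Nat.log 2 z := Nat.log_pos (by norm_num) hz
  have h6 : (1 : ℝ) ≤ (Nat.log 2 z : ℝ) := by exact_mod_cast h2
  have h3 := log_le hz
  have hlz : 0 ≤ Real.log z := Real.log_nonneg (by exact_mod_cast (by omega : 1 ≤ z))
  have h4 : (T : ℝ) ≤ b * Real.log z + 1 := by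
    rw [hT]
    exact (Nat.ceil_lt_add_one (mul_nonneg hb.le hlz)).le
  have h5 : (T : ℝ) ≤ 2 * b * Nat.log 2 z + 1 := by
    have := mul_le_mul_of_nonneg_left h3 hb.le
    linarith
  have hL : (0 : ℝ) ≤ L := Nat.cast_nonneg L
  have h7 : (L : ℝ) + L * T ≤ 2 * L * (b + 1) * Nat.log 2 z := by
    have h8 := mul_le_mul_of_nonneg_left h5 hL
    have h9 := mul_le_mul_of_nonneg_left h6 hL
    nlinarith
  have h10 : 2 * (L : ℝ) * (b + 1) ≤ (⌈2 * L * (b + 1)⌉₊ : ℝ) + 1 := by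
    have := Nat.le_ceil (2 * (L : ℝ) * (b + 1))
    linarith
  have h11 : (L : ℝ) + L * T ≤ ((⌈2 * L * (b + 1)⌉₊ : ℝ) + 1) * Nat.log 2 z :=
    h7.trans (mul_le_mul_of_nonneg_right h10 (by linarith))
  exact_mod_cast h11

end WIN_

open Pool.Agent.SPA.MAIN_ in
theorem p_WIN (h1 : T_MO2) (h2 : T_VLO) : T_WIN := by
  classical
  obtain ⟨s, hs, h1'⟩ := h1
  obtain ⟨C, hC, hV⟩ := h2
  refine ⟨s + 1, by omega, fun ε hε => ?_⟩
  obtain ⟨L, z1, B, hL, hB, hmom⟩ := h1' (ε / 4) (by positivity)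
  have hM := MM_pos hL
  have hBC : 0 < B * C := mul_pos hB hC
  refine ⟨L, ⌈2 * L * (B * C + 1)⌉₊ + 1, max (max z1 (MM L)) (max (max 2 ⌈Real.exp (B * C + 1)⌉₊)
    ⌈(MM L + MM L * (ε / 4)) * (4 / ε)⌉₊), hL, by omega, fun z x u hz hzx => ?_⟩
  have hz0 : z1 ≤ z := le_trans (le_max_left _ _) (le_trans (le_max_left _ _) hz)
  have hzM : MM L ≤ z := le_trans (le_max_right _ _) (le_trans (le_max_left _ _) hz)
  have hz1 : 2 ≤ z := le_trans (le_max_left _ _)
    (le_trans (le_max_left _ _) (le_trans (le_max_right _ _) hz))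
  have hz5 : ⌈Real.exp (B * C + 1)⌉₊ ≤ z := le_trans (le_max_right _ _)
    (le_trans (le_max_left _ _) (le_trans (le_max_right _ _) hz))
  have hz6 : ⌈(MM L + MM L * (ε / 4)) * (4 / ε)⌉₊ ≤ z := le_trans (le_max_right _ _)
    (le_trans (le_max_right _ _) hz)
  have hzx1 : z ≤ x := by
    refine le_trans ?_ hzx
    calc z = z ^ 1 := (pow_one z).symm
      _ ≤ z ^ (s + 1) := Nat.pow_le_pow_right (by omega) (by omega)
  have hzs : z ^ s ≤ x / MM L + 1 := by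
    have h3 : z ^ s * MM L ≤ x := by
      refine le_trans (Nat.mul_le_mul_left _ hzM) ?_
      rw [← pow_succ]
      exact hzx
    have h4 : z ^ s ≤ x / MM L := (Nat.le_div_iff_mul_le hM).2 h3
    omega
  set T : ℕ := ⌈B * C * Real.log z⌉₊ with hT
  have hTlog : (T : ℝ) ≤ Real.log z ^ 2 := Pool.Agent.SPU.MN2_.T_le hB hC hz5
  have hlz : 0 < Real.log z := Real.log_pos (by exact_mod_cast (by omega : 1 < z))
  have hTV : B ≤ T * VV L z := by
    have hv := (hV z (PS L z) hz1 (by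
      intro p hp
      unfold PS at hp
      rw [mem_filter, mem_Icc] at hp
      obtain ⟨⟨-, hp1⟩, hp2, hp3⟩ := hp
      refine ⟨hp2, ?_, hp1⟩
      have h4 : p ≠ 2 := fun h => hp3 (h ▸ Dvd.intro _ rfl)
      have h5 := hp2.two_le
      omega)).1
    have h6 : B * C * Real.log z ≤ T := Nat.le_ceil _
    have h7 : 0 < C * Real.log z := mul_pos hC hlz
    calc B = (B * C * Real.log z) * (1 / (C * Real.log z)) := by
          field_simp
      _ ≤ T * (1 / (C * Real.log z)) := mul_le_mul_of_nonneg_right h6 (by positivity)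
      _ ≤ T * VV L z := mul_le_mul_of_nonneg_left hv (Nat.cast_nonneg T)
  have hlen := WIN_.len (L := L) hBC hz1 hT
  -- the choice of the exponents
  have hch : ∀ κ : ℕ, ∃ a : ℕ, Opn L κ → u < a ∧ a ≤ u + L ∧
      Nat.Coprime (κ * 2 ^ a + 1) (2 ^ L - 1) := by
    intro κ
    by_cases h : Opn L κ
    · obtain ⟨a, ha⟩ := WIN_.expo (u := u) hL h
      exact ⟨a, fun _ => ha⟩
    · exact ⟨0, fun h' => absurd h' h⟩
  choose a ha using hch
  have hcount := count (x := x) (Y := x / MM L + 1) (z := z) (T := T) (δ := ε / 4)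
    (P := fun k => Odd k ∧ Opn L k ∧ ¬ ∃ n : ℕ, u < n ∧
      n ≤ u + (⌈2 * L * (B * C + 1)⌉₊ + 1) * Nat.log 2 z ∧ Sv z k n) hL a rfl (by
      intro κ _ j hj hjx hPk t ht hG
      obtain ⟨-, hO, hA⟩ := hPk
      have hOκ : Opn L κ := by
        obtain ⟨b, hb1, hb2, hb3⟩ := hO
        exact ⟨b, hb1, hb2, cop.1 hb3⟩
      obtain ⟨ha1, ha2, ha3⟩ := ha κ hOκ
      apply hA
      refine ⟨a κ + L * t, by omega, ?_, ?_⟩
      · have : L * t ≤ L * T := Nat.mul_le_mul_left _ ht.le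
        omega
      · intro p hp hd
        have := GAP_.large (by omega : 1 ≤ a κ) (cop.2 ha3) hG hp hd
        omega)
    (fun κ => by
      have h8 := hmom z (x / MM L + 1) T κ (a κ) hz0 hzs hTV hTlog
      convert h8 using 3)
  refine hcount.trans ?_
  have hMr : (0 : ℝ) < MM L := by exact_mod_cast hM
  have hY : (MM L : ℝ) * ((x / MM L + 1 : ℕ) : ℝ) ≤ x + MM L := by
    have h9 : MM L * (x / MM L) ≤ x := Nat.mul_div_le x (MM L)
    have h10 : MM L * (x / MM L + 1) ≤ x + MM L := by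
      rw [mul_add, mul_one]
      omega
    exact_mod_cast h10
  have hx5 : (MM L + MM L * (ε / 4)) * (4 / ε) ≤ (x : ℝ) := by
    refine (Nat.le_ceil _).trans ?_
    exact_mod_cast hz6.trans hzx1
  have hx6 : (MM L : ℝ) + MM L * (ε / 4) ≤ ε / 4 * x := by
    have h11 := mul_le_mul_of_nonneg_left hx5 (by positivity : (0 : ℝ) ≤ ε / 4)
    have h12 : ε / 4 * (((MM L : ℝ) + MM L * (ε / 4)) * (4 / ε)) = MM L + MM L * (ε / 4) := by
      field_simp
    rw [h12] at h11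
    exact h11
  have h13 : (MM L : ℝ) * (ε / 4 * ((x / MM L + 1 : ℕ) : ℝ)) ≤ ε / 4 * (x + MM L) := by
    have := mul_le_mul_of_nonneg_left hY (by positivity : (0 : ℝ) ≤ ε / 4)
    linarith
  have hx7 : (0 : ℝ) ≤ x := Nat.cast_nonneg x
  have h14 : 0 ≤ ε * x := by positivity
  linarith

end Pool.Agent.CGR
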