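import Pool.Agent.SPU.All
import Pool.Agent.CGR.P_WIN
import Pool.Agent.CGR.P_PRL
import Pool.Agent.CGR.P_JQ
import Pool.Agent.CGR.P_SUM
import Pool.Agent.CGR.P_MKV
import Pool.Agent.CGR.P_STA
import Pool.Agent.CGR.P_IND
import Pool.Agent.CGR.P_AK
import Pool.Agent.CGR.P_VAR
import Pool.Agent.CGR.P_BCL
import Pool.Agent.CGR.P_LOW
import Pool.Agent.CGR.P_UPP
import Pool.Agent.CGR.P_FIN

/-!
CGR (MP_315051_nt): assembly.
-/

set_option autoImplicit false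

open Finset MeasureTheory ProbabilityTheory

namespace Pool.Agent.CGR

open Pool.Agent.SPA
open Pool.Agent.SPU (mo2_all vlo_all le_dens d_all)
open Pool.Agent.SPT (inf_le)

theorem sta_all : T_STA := p_STA (p_WIN mo2_all vlo_all) p_JQ (p_SUM p_PRL) p_MKV

theorem bcl_all : T_BCL := p_BCL (p_AK p_IND) p_VAR

theorem fin_all : T_FIN := p_FIN (p_LOW sta_all bcl_all) (p_UPP p_OPC) p_DEN

/-- The hypotheses in plain form give those of the model. -/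
theorem mod_of {Ω : Type} [MeasurableSpace Ω] (μ : Measure Ω) [IsProbabilityMeasure μ]
    (g : ℕ → ℕ) (δ : ℝ) (hδ : 0 < δ) (S : ℕ → Set Ω) (hS : ∀ m, MeasurableSet (S m))
    (hi : iIndepSet S μ) (h0 : ∀ m, (∃ p : ℕ, p.Prime ∧ p ≤ g m ∧ p ∣ m) → μ (S m) = 0)
    (h1 : ∀ m : ℕ, 2 ≤ m → (∀ p : ℕ, p.Prime → p ≤ g m → ¬ p ∣ m) →
      min 1 (δ / ((∏ p ∈ (Icc 1 (g m)).filter Nat.Prime, (1 - 1 / (p : ℝ))) * Real.log m)) ≤
        μ.real (S m)) : Mod μ g (min δ 1) S := by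
  refine ⟨hS, hi, h0, fun m => ?_⟩
  have hd : 0 < min δ 1 := lt_min hδ one_pos
  unfold prob
  split_ifs with hp
  · simp
  · rcases Nat.lt_or_ge m 2 with hm | hm
    · have hl : Real.log (m : ℝ) = 0 := by
        interval_cases m <;> simp
      rw [hl]
      simp
    · push Not at hp
      refine le_trans ?_ (h1 m hm (fun p hp1 hp2 hp3 => hp p hp1 hp2 hp3))
      have hV : 0 ≤ VP (g m) := by
        refine Finset.prod_nonneg fun p hp => ?_
        have h2 : (1 : ℝ) ≤ p := by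
          exact_mod_cast (mem_Icc.1 (mem_filter.1 hp).1).1
        have h3 : 1 / (p : ℝ) ≤ 1 := by
          rw [div_le_one (by linarith)]
          exact h2
        linarith
      have hL : 0 ≤ Real.log (m : ℝ) := Real.log_natCast_nonneg m
      have hX : 0 ≤ 1 / (VP (g m) * Real.log m) := by positivity
      refine le_min ?_ ?_
      · calc min δ 1 * min 1 (1 / (VP (g m) * Real.log m)) ≤ 1 * 1 :=
              mul_le_mul (min_le_right _ _) (min_le_left _ _)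
                (le_min zero_le_one hX) zero_le_one
          _ = 1 := one_mul 1
      · calc min δ 1 * min 1 (1 / (VP (g m) * Real.log m)) ≤
              δ * (1 / (VP (g m) * Real.log m)) :=
              mul_le_mul (min_le_left _ _) (min_le_right _ _)
                (le_min zero_le_one hX) hδ.le
          _ = δ / ((∏ p ∈ (Icc 1 (g m)).filter Nat.Prime, (1 - 1 / (p : ℝ))) * Real.log m) := by
              unfold VP
              ring

/-- The density in the random model. -/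
theorem g_all : ∃ K : ℝ, 0 < K ∧
    (∀ P : Finset ℕ, (∀ p ∈ P, p.Prime) → ∀ ε : ℝ, 0 < ε → ∃ x0 : ℕ, ∀ x ≥ x0,
      (K - ε) * x ≤ cnt (fun k => Odd k ∧ ¬ CoveredBy P k) x) ∧
    (∀ ε : ℝ, 0 < ε → ∃ P : Finset ℕ, (∀ p ∈ P, p.Prime) ∧ ∃ x0 : ℕ, ∀ x ≥ x0,
      cnt (fun k => Odd k ∧ ¬ CoveredBy P k) x ≤ (K + ε) * x) ∧
    ∀ g : ℕ → ℕ, Monotone g → Filter.Tendsto g Filter.atTop Filter.atTop →
      (∀ c : ℝ, 0 < c → ∃ m0 : ℕ, ∀ m ≥ m0, (g m : ℝ) ≤ (m : ℝ) ^ c) →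
      (∃ C m0 : ℕ, ∀ m ≥ m0, g (m ^ 2) ≤ g m ^ C) →
      ∀ (Ω : Type) (_ : MeasurableSpace Ω) (μ : Measure Ω) (_ : IsProbabilityMeasure μ)
        (S : ℕ → Set Ω) (δ : ℝ), 0 < δ → (∀ m, MeasurableSet (S m)) → iIndepSet S μ →
        (∀ m, (∃ p : ℕ, p.Prime ∧ p ≤ g m ∧ p ∣ m) → μ (S m) = 0) →
        (∀ m : ℕ, 2 ≤ m → (∀ p : ℕ, p.Prime → p ≤ g m → ¬ p ∣ m) →
          min 1 (δ / ((∏ p ∈ (Icc 1 (g m)).filter Nat.Prime, (1 - 1 / (p : ℝ))) *
            Real.log m)) ≤ μ.real (S m)) →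
        ∀ᵐ ω ∂μ, Filter.Tendsto
          (fun x : ℕ => cnt (fun k => Odd k ∧ ∃ n : ℕ, 1 ≤ n ∧ ω ∈ S (k * 2 ^ n + 1)) x / x)
          Filter.atTop (nhds K) := by
  obtain ⟨K, h0, h1, h2, _, _, _⟩ := d_all
  refine ⟨K, h0, h1, h2, ?_⟩
  intro g g1 g2 g3 g4 Ω _ μ _ S δ hδ hS hi m0 m1
  exact fin_all K (le_dens K h1) (inf_le K h2) g ⟨g1, g2, g3, g4⟩ Ω _ μ inferInstance (min δ 1) S
    (lt_min hδ one_pos) (mod_of μ g δ hδ S hS hi m0 m1)

end Pool.Agent.CGR
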