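import Pool.Agent.SPU.Targets
import Pool.Agent.TSP.Tools

/-!
CGR (MP_315051_nt): the density of the odd `k` with a `k * 2 ^ n + 1` in a Cramer-Granville random
set. Definitions and targets; the proof of every target is in its docstring. `T_MO2` is proved in
`Pool/Agent/SPU/All.lean` (`mo2_all`), `T_VLO`, `T_OPC`, `T_DEN` are targets of
`Pool/Agent/SPA/Targets.lean`.
-/

set_option autoImplicit false

open Finset MeasureTheory ProbabilityTheory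

namespace Pool.Agent.CGR

open Pool.Agent.SPA
open Pool.Agent.SPU (T_MO2)

/-- The product of `1 - 1/p` over the primes `p ≤ z`. -/
noncomputable def VP (z : ℕ) : ℝ := ∏ p ∈ (Icc 1 z).filter Nat.Prime, (1 - 1 / (p : ℝ))

open Classical in
/-- The Cramer-Granville probability of `m`, presieved by the primes `≤ g m`. -/
noncomputable def prob (g : ℕ → ℕ) (m : ℕ) : ℝ :=
  if ∃ p : ℕ, p.Prime ∧ p ≤ g m ∧ p ∣ m then 0 else min 1 (1 / (VP (g m) * Real.log m))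

/-- The conditions for the presieving function. -/
structure GG (g : ℕ → ℕ) : Prop where
  mono : Monotone g
  top : Filter.Tendsto g Filter.atTop Filter.atTop
  pow : ∀ c : ℝ, 0 < c → ∃ m0 : ℕ, ∀ m ≥ m0, (g m : ℝ) ≤ (m : ℝ) ^ c
  reg : ∃ C m0 : ℕ, ∀ m ≥ m0, g (m ^ 2) ≤ g m ^ C

/-- All prime factors of `k * 2 ^ n + 1` are larger than `z`. -/
def Sv (z k n : ℕ) : Prop := ∀ p : ℕ, p.Prime → p ∣ k * 2 ^ n + 1 → z < p

/-- The lower end of block `i`. -/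
def bb (N i : ℕ) : ℕ := 2 ^ (2 ^ i * N)

/-- The sieving limit of block `i`. -/
def zz (g : ℕ → ℕ) (N i : ℕ) : ℕ := g (bb N i ^ 4)

/-- The length of the windows of block `i`. -/
def hh (g : ℕ → ℕ) (B N i : ℕ) : ℕ := B * Nat.log 2 (zz g N i)

/-- The number of the windows of block `i`. -/
def JJ (g : ℕ → ℕ) (B N i : ℕ) : ℕ := 2 ^ i * N / hh g B N i

/-- A lower bound for the probabilities in block `i`. -/
noncomputable def qq (g : ℕ → ℕ) (N i : ℕ) : ℝ :=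
  min 1 (Real.log (g (bb N i) + 1) / (4 * (2 ^ i * N) * Real.log 2))

/-- Window `j` of block `i` contains a good exponent. -/
def Win (g : ℕ → ℕ) (B N i j k : ℕ) : Prop :=
  ∃ n : ℕ, 2 ^ i * N + j * hh g B N i < n ∧ n ≤ 2 ^ i * N + (j + 1) * hh g B N i ∧
    Sv (zz g N i) k n

/-! ### The arithmetic part -/

open Classical in
/-- WIN (`theorem p_WIN (h1 : T_MO2) (h2 : T_VLO) : T_WIN`). As `Pool/Agent/SPU/P_MN2.lean` and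
`Pool/Agent/SPA/P_MAIN.lean`, but `z` is free and there is no upper bound for the number of prime
factors. `s = s₁ + 1` with `s₁` from MO2. Given `ε`: MO2 with `ε/4` gives `L, z₁, B₁`;
`T = ⌈B₁ C log z⌉₊` with `C` of VLO (`VV L z ≥ 1/(C log z)`), so `B₁ ≤ T * VV L z`, and
`T ≤ (log z)^2`, `L + L * T ≤ B * Nat.log 2 z` for `z ≥ z0` with `B = ⌈2 L (B₁ C + 2)⌉₊ + 1`
(`log z ≤ Nat.log 2 z + 1 ≤ 2 Nat.log 2 z`). Let `M = MM L`, `Y = x / M + 1`; `z^s₁ ≤ Y` as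
`z ≥ M` and `z^(s₁+1) ≤ x`. For `k ≤ x` odd with `Opn L k` and `k ≥ M` let `κ = k % M`,
`j = k / M`, `1 ≤ j ≤ Y`; `κ` is odd and `Opn L κ` holds, hence (as `2^L ≡ 1` modulo `2^L - 1`) some
`a` depending only on `κ` and `u` with `u < a ≤ u + L` has `κ 2^a + 1`, so also all
`k 2^(a + L t) + 1`, coprime to `2^L - 1`. If `t < T` and `Gd L z a k t` then all prime factors of
`k 2^(a + L t) + 1` are `> z` (those dividing `2 (2^L - 1)` are excluded), and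
`u < a + L t ≤ u + L + L T ≤ u + B Nat.log 2 z`. So every `κ < M` has at most `(ε/4) Y` exceptional
`j`, in all at most `M + M (ε/4) (x/M + 1) ≤ ε x` (`x ≥ z0` large). -/
def T_WIN : Prop := ∃ s : ℕ, 1 ≤ s ∧ ∀ ε : ℝ, 0 < ε → ∃ L B z0 : ℕ, 1 ≤ L ∧ 1 ≤ B ∧
  ∀ z x u : ℕ, z0 ≤ z → z ^ s ≤ x →
    cnt (fun k => Odd k ∧ Opn L k ∧
      ¬ ∃ n : ℕ, u < n ∧ n ≤ u + B * Nat.log 2 z ∧ Sv z k n) x ≤ ε * x

/-- PRL (`theorem p_PRL : T_PRL`). Let `b = bb N i`, `m = k 2^n + 1`. `b ≤ m ≤ b^4`: `m ≥ 2^n ≥ b`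
and `m ≤ 2^(N+1) 2^(2^(i+1) N) + 1 ≤ 2^(N + 2 + 2^(i+1) N) ≤ 2^(4 2^i N)` (`i, N ≥ 1`). So
`g b ≤ g m ≤ zz g N i`, no prime `≤ g m` divides `m` (by `Sv`), and
`prob g m = min 1 (1/(VP (g m) log m))`. `VP (g m) ≤ VP (g b)` (more factors in `[0,1]`),
`VP (g b) log (g b + 1) ≤ 1` (`Pool.Agent.TSP.mertens`; `Pool.Agent.TSP.pr z` is the set of the
primes `≤ z`), `VP > 0`, `0 < log m ≤ 4 2^i N log 2`. So
`1/(VP (g m) log m) ≥ log (g b + 1)/(4 2^i N log 2)`. -/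
def T_PRL : Prop := ∀ (g : ℕ → ℕ) (N i k n : ℕ), Monotone g → 1 ≤ N → 1 ≤ i → 1 ≤ k →
  k ≤ 2 ^ (N + 1) → 2 ^ i * N < n → n ≤ 2 ^ (i + 1) * N → Sv (zz g N i) k n →
  qq g N i ≤ prob g (k * 2 ^ n + 1)

/-- JQ (`theorem p_JQ : T_JQ`). Let `C, m0` be from `GG.reg` and `D = 16 (C^2 + 1)`. Let `N` be
large, `b = bb N i ≥ 2^N`. `z = zz g N i = g (b^4) ≤ g (b^2)^C ≤ (g b)^(C^2)`, so with
`l = Nat.log 2 z ≥ 1`: `l log 2 ≤ log z ≤ C^2 log (g b)` (`g b ≥ 2`, `z ≥ 2`), so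
`log (g b + 1) ≥ l log 2/(C^2 + 1)`. `GG.pow` with `c = 1/(8 B 2^I)` at `b^4 = 2^(4 2^i N)`:
`z ≤ 2^(4 2^i N c)`, so `B l ≤ 4 2^i N c B ≤ 2^i N/2` (`i ≤ I`), so `1 ≤ JJ` and
`JJ ≥ 2^i N/(B l) - 1 ≥ 2^i N/(2 B l)`. If the minimum in `qq` is `1` the product is
`≥ 1 ≥ 1/(D B)`; otherwise it is
`≥ 2^i N/(2 B l) * (l log 2/(C^2+1))/(4 2^i N log 2) = 1/(8 B (C^2+1)) ≥ 1/(D B)`. -/
def T_JQ : Prop := ∀ g : ℕ → ℕ, GG g → ∃ D : ℕ, 1 ≤ D ∧ ∀ B I : ℕ, 1 ≤ B → ∃ N0 : ℕ, ∀ N ≥ N0,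
  ∀ i : ℕ, 1 ≤ i → i ≤ I → 1 ≤ hh g B N i ∧ 1 ≤ JJ g B N i ∧
    1 / ((D : ℝ) * B) ≤ JJ g B N i * qq g N i

open Classical in
/-- SUM (`theorem p_SUM (h : T_PRL) : T_SUM`). For every pair `(i, j)` with `Win` choose the `n` of
`Win`; by PRL (`n ≤ 2^i N + (j+1) hh ≤ 2^i N + JJ hh ≤ 2^(i+1) N`) its term on the right is
`≥ qq g N i`. The windows `(2^i N + j hh, 2^i N + (j+1) hh]` are disjoint subsets of
`(2^i N, 2^(i+1) N]`, so different pairs have different `n`; the terms are `≥ 0` (`prob ≥ 0`). For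
instance: the sum over `n ∈ Icc 1 (2^(I+1) N)` is at least the sum over `i ∈ Icc 1 I` of the sums
over `Ioc (2^i N) (2^(i+1) N)`, and each of these is at least the sum over `j < JJ` of the sums over
the windows. -/
def T_SUM : Prop := ∀ (g : ℕ → ℕ) (B N I k : ℕ), Monotone g → 1 ≤ N → 1 ≤ k → k ≤ 2 ^ (N + 1) →
  ∑ i ∈ Icc 1 I, ∑ j ∈ range (JJ g B N i), (if Win g B N i j k then qq g N i else 0) ≤
    ∑ n ∈ Icc 1 (2 ^ (I + 1) * N), prob g (k * 2 ^ n + 1)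

open Classical in
/-- MKV (`theorem p_MKV : T_MKV`), Markov's inequality. The number of the `k ∈ F` with
`∑_{(i,j) not good} w i > W/2` is at most `(ε/2) X` because the sum over `k ∈ F` of
`∑_i ∑_{j < J i} (if G i j k then 0 else w i)` is at most `∑_i ∑_j w i (ε/4) X = W (ε/4) X` with
`W = ∑_i J i w i`. The other `k` have `∑_{(i,j) good} w i ≥ W/2`. -/
def T_MKV : Prop := ∀ (I : ℕ) (J : ℕ → ℕ) (w : ℕ → ℝ) (G : ℕ → ℕ → ℕ → Prop) (F : Finset ℕ)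
  (ε X W : ℝ), 0 < ε → 0 ≤ X → 0 < W → (∀ i ∈ Icc 1 I, 0 ≤ w i) →
  W = ∑ i ∈ Icc 1 I, (J i : ℝ) * w i →
  (∀ i ∈ Icc 1 I, ∀ j < J i, ((F.filter fun k => ¬ G i j k).card : ℝ) ≤ ε / 4 * X) →
  ((F.filter fun k => ∑ i ∈ Icc 1 I, ∑ j ∈ range (J i), (if G i j k then w i else 0) <
    W / 2).card : ℝ) ≤ ε / 2 * X

open Classical in
/-- STA (`theorem p_STA (h1 : T_WIN) (h2 : T_JQ) (h3 : T_SUM) (h4 : T_MKV) : T_STA`). WIN with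
`ε/4` gives `L, B, z0`; `D` from JQ; `I ≥ 1` with `M0 ≤ I/(2 D B)`. Let `x` be large,
`N = Nat.log 2 x`, so `2^N ≤ x < 2^(N+1)`; `F` = the odd `k ≤ x` with `Opn L k` (`k ≥ 1`);
`J i = JJ g B N i`, `w i = 1/(D B J i) ≤ qq g N i` (JQ), `W = ∑_i J i w i = I/(D B)`,
`G i j k = Win g B N i j k`. For `z = zz g N i` and `u = 2^i N + j hh`: `z ≥ z0` (`g → ∞`), and
`z^s ≤ x` by `GG.pow` with `c = 1/(4 2^I s)` (`b^4 = 2^(4 2^i N) ≤ x^(4 2^i)`). So WIN gives the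
hypothesis of MKV with `X = x`. MKV: all but `(ε/2) x` of the `k ∈ F` have
`∑_i ∑_j (if Win then w i else 0) ≥ W/2 ≥ M0`, and by SUM (`w i ≤ qq g N i`) the sum of `prob` is
`≥ M0`. -/
def T_STA : Prop := ∀ g : ℕ → ℕ, GG g → ∀ ε : ℝ, 0 < ε → ∃ L : ℕ, 1 ≤ L ∧ ∀ M0 : ℝ,
  ∃ I x0 : ℕ, ∀ x ≥ x0,
    cnt (fun k => Odd k ∧ Opn L k ∧
      ∑ n ∈ Icc 1 (2 ^ (I + 1) * Nat.log 2 x), prob g (k * 2 ^ n + 1) < M0) x ≤ ε * x

/-! ### The probabilistic part -/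

/-- The hypotheses of the model: independent events `S m`, with probability `0` if `m` has a prime
factor `≤ g m`, and at least `δ` times the Cramer-Granville probability. -/
structure Mod {Ω : Type} [MeasurableSpace Ω] (μ : Measure Ω) (g : ℕ → ℕ) (δ : ℝ)
    (S : ℕ → Set Ω) : Prop where
  meas : ∀ m, MeasurableSet (S m)
  ind : iIndepSet S μ
  zero : ∀ m, (∃ p : ℕ, p.Prime ∧ p ≤ g m ∧ p ∣ m) → μ (S m) = 0
  low : ∀ m, δ * prob g m ≤ μ.real (S m)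

/-- `k * 2 ^ n + 1` is not in the random set for `1 ≤ n ≤ R`. -/
def Ak {Ω : Type} (S : ℕ → Set Ω) (R k : ℕ) : Set Ω :=
  {ω | ∀ n ∈ Icc 1 R, ω ∉ S (k * 2 ^ n + 1)}

/-- IND (`theorem p_IND : T_IND`). The sigma-algebras generated by the `{S m}` are independent
(`iIndepSet` by definition, `iIndepSet = iIndep (fun m => generateFrom {S m}) μ`), and `(S m)ᶜ` is
in the one of `m`: `iIndep.meas_biInter`; `μ (S m)ᶜ = 1 - μ (S m)`. -/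
def T_IND : Prop := ∀ (Ω : Type) (_ : MeasurableSpace Ω) (μ : Measure Ω)
  (_ : IsProbabilityMeasure μ) (S : ℕ → Set Ω), (∀ m, MeasurableSet (S m)) → iIndepSet S μ →
  ∀ F : Finset ℕ, μ.real (⋂ m ∈ F, (S m)ᶜ) = ∏ m ∈ F, (1 - μ.real (S m))

/-- AK (`theorem p_AK (h : T_IND) : T_AK`). `Ak S R k` is the intersection of the complements of the
`S m`, `m ∈ F k = {k 2^n + 1 : n ∈ Icc 1 R}`; `n ↦ k 2^n + 1` is injective (`k ≥ 1`). IND: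
`μ (Ak) = ∏ (1 - μ (S m)) ≤ exp (-∑ μ (S m)) ≤ exp (-δ ∑ prob)`. For odd `k ≠ k'` the sets `F k`,
`F k'` are disjoint (`k 2^n = k' 2^n'` with `k, k'` odd gives `k = k'`), and IND for the union. -/
def T_AK : Prop := ∀ (Ω : Type) (_ : MeasurableSpace Ω) (μ : Measure Ω)
  (_ : IsProbabilityMeasure μ) (g : ℕ → ℕ) (δ : ℝ) (S : ℕ → Set Ω), Mod μ g δ S → ∀ R k : ℕ,
  Odd k → MeasurableSet (Ak S R k) ∧
    μ.real (Ak S R k) ≤ Real.exp (-(δ * ∑ n ∈ Icc 1 R, prob g (k * 2 ^ n + 1))) ∧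
    ∀ k' : ℕ, Odd k' → k ≠ k' →
      μ.real (Ak S R k ∩ Ak S R k') = μ.real (Ak S R k) * μ.real (Ak S R k')

open Classical in
/-- VAR (`theorem p_VAR : T_VAR`), Chebyshev's inequality for pairwise independent events. Let
`X = ∑_{k ∈ F} 1_{A k}`, `e = ∑ μ (A k)` its mean. `∫ (X - e)^2 = ∑_{k, k'} (μ (A k ∩ A k') -
μ (A k) μ (A k')) = ∑_k (μ (A k) - μ (A k)^2) ≤ |F|`, and `t^2 μ {e + t ≤ X} ≤ ∫ (X - e)^2`. -/
def T_VAR : Prop := ∀ (Ω : Type) (_ : MeasurableSpace Ω) (μ : Measure Ω)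
  (_ : IsProbabilityMeasure μ) (A : ℕ → Set Ω) (F : Finset ℕ) (t : ℝ), 0 < t →
  (∀ k ∈ F, MeasurableSet (A k)) →
  (∀ k ∈ F, ∀ k' ∈ F, k ≠ k' → μ.real (A k ∩ A k') = μ.real (A k) * μ.real (A k')) →
  μ.real {ω | ∑ k ∈ F, μ.real (A k) + t ≤ ((F.filter fun k => ω ∈ A k).card : ℝ)} ≤
    (F.card : ℝ) / t ^ 2

open Classical in
/-- BCL (`theorem p_BCL (h1 : T_AK) (h2 : T_VAR) : T_BCL`). VAR for `F j`, `A k = Ak S (R j) k`,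
`t = η 2^j`: `∑ μ (A k) ≤ |F j| exp (-M1) ≤ (2^j + 1) exp (-M1)` (AK), so the event
`(exp (-M1) + η) (2^j + 1) < #{k ∈ F j : ω ∈ A k}` has probability
`≤ |F j|/(η 2^j)^2 ≤ 2/(η^2 2^j)`, which is summable: Borel-Cantelli
(`MeasureTheory.ae_eventually_notMem`). -/
def T_BCL : Prop := ∀ (Ω : Type) (_ : MeasurableSpace Ω) (μ : Measure Ω)
  (_ : IsProbabilityMeasure μ) (g : ℕ → ℕ) (δ : ℝ) (S : ℕ → Set Ω), Mod μ g δ S →
  ∀ (R : ℕ → ℕ) (F : ℕ → Finset ℕ) (M1 η : ℝ), 0 < η →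
  (∀ j, ∀ k ∈ F j, Odd k ∧ k ≤ 2 ^ j ∧
    M1 ≤ δ * ∑ n ∈ Icc 1 (R j), prob g (k * 2 ^ n + 1)) →
  ∀ᵐ ω ∂μ, ∃ j0 : ℕ, ∀ j ≥ j0,
    (((F j).filter fun k => ω ∈ Ak S (R j) k).card : ℝ) ≤ (Real.exp (-M1) + η) * (2 ^ j + 1)

/-- LOW (`theorem p_LOW (h1 : T_STA) (h2 : T_BCL) : T_LOW`). STA with `ε/8` gives `L`; `M1` with
`exp (-M1) ≤ ε/32`; STA with `M0 = M1/δ` gives `I, x1`. `R j = 2^(I+1) Nat.log 2 (2^j)`,
`F j` = the odd `k ≤ 2^j` with `Opn L k` and `M0 ≤ ∑_{n ≤ R j} prob`. BCL with `η = ε/32`. Let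
`ω` be such that its conclusion holds from `j0` on. For large `x` let `2^(j-1) ≤ x < 2^j`
(`j = Nat.log 2 x + 1`); the count up to `x` is at most the one up to `2^j`, which is at most
`(ε/8) 2^j` (STA; the `k` with a small sum) plus the number of the `k ∈ F j` with
`ω ∈ Ak S (R j) k`, i.e. at most `(ε/8) 2^j + (ε/16) (2^j + 1) ≤ (ε/4) 2^j ≤ (ε/2) x`
(for `2^j ≥ 1`: `(ε/16) (2^j + 1) ≤ (ε/8) 2^j`). -/
def T_LOW : Prop := ∀ g : ℕ → ℕ, GG g → ∀ ε : ℝ, 0 < ε → ∃ L : ℕ, 1 ≤ L ∧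
  ∀ (Ω : Type) (_ : MeasurableSpace Ω) (μ : Measure Ω) (_ : IsProbabilityMeasure μ) (δ : ℝ)
    (S : ℕ → Set Ω), 0 < δ → Mod μ g δ S → ∀ᵐ ω ∂μ, ∃ x0 : ℕ, ∀ x ≥ x0,
    cnt (fun k => Odd k ∧ Opn L k ∧ ¬ ∃ n : ℕ, 1 ≤ n ∧ ω ∈ S (k * 2 ^ n + 1)) x ≤ ε * x

/-- UPP (`theorem p_UPP (h : T_OPC) : T_UPP`). Almost surely no `S m` with `μ (S m) = 0` occurs
(countably many null sets). There is `k0` with `g m ≥ 2^L` for `m ≥ k0`. Let `k ≥ k0` be odd with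
`ω ∈ S m`, `m = k 2^n + 1 ≥ k0`, `n ≥ 1`. By `Mod.zero` no prime `≤ g m` divides `m`. If `Opn L k`
fails then by OPC some prime `p ∣ 2^L - 1`, so `p ≤ 2^L ≤ g m`, divides `m`; contradiction. (See
the part (b) of `Pool/Agent/SPA/P_FIN.lean` or `FN3_.upper` in `Pool/Agent/SPU/P_FN3.lean`.) -/
def T_UPP : Prop := ∀ g : ℕ → ℕ, GG g → ∀ (Ω : Type) (_ : MeasurableSpace Ω) (μ : Measure Ω)
  (_ : IsProbabilityMeasure μ) (δ : ℝ) (S : ℕ → Set Ω), Mod μ g δ S → ∀ᵐ ω ∂μ, ∀ L : ℕ, 1 ≤ L →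
  ∃ k0 : ℕ, ∀ x : ℕ, cnt (fun k => Odd k ∧ ∃ n : ℕ, 1 ≤ n ∧ ω ∈ S (k * 2 ^ n + 1)) x ≤
    cnt (fun k => Odd k ∧ Opn L k) x + k0

/-- FIN (`theorem p_FIN (h1 : T_LOW) (h2 : T_UPP) (h3 : T_DEN) : T_FIN`). For `ε = 1/(q+1)`, `q ∈ ℕ`
(countably many; `ae_all_iff`), LOW gives `L = L q`. Let `ω` be good for LOW (all `q`) and UPP.
Given `ε > 0` take `q` with `1/(q+1) ≤ ε/2`. Lower bound: the count is at least
`cnt (Odd ∧ Opn L) x - (ε/2) x ≥ K x - MM L - 1 - (ε/2) x ≥ (K - ε) x` for large `x` (DEN,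
`K ≤ dens L`). Upper bound: `L'` with `dens L' ≤ K + ε/2` (second hypothesis), UPP, DEN. Then the
quotient by `x` tends to `K`. -/
def T_FIN : Prop := ∀ K : ℝ,
  (∀ L : ℕ, 1 ≤ L → K ≤ dens L) → (∀ K' : ℝ, (∀ L : ℕ, 1 ≤ L → K' ≤ dens L) → K' ≤ K) →
  ∀ g : ℕ → ℕ, GG g → ∀ (Ω : Type) (_ : MeasurableSpace Ω) (μ : Measure Ω)
  (_ : IsProbabilityMeasure μ) (δ : ℝ) (S : ℕ → Set Ω), 0 < δ → Mod μ g δ S →
  ∀ᵐ ω ∂μ, Filter.Tendsto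
    (fun x : ℕ => cnt (fun k => Odd k ∧ ∃ n : ℕ, 1 ≤ n ∧ ω ∈ S (k * 2 ^ n + 1)) x / x)
    Filter.atTop (nhds K)

end Pool.Agent.CGR
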